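import Pool.Agent.Helper6.RT.Near
import Pool.Agent.Helper6.RT.Row
import Pool.Agent.Helper66.RT.Mt

/-!
# RT project: the coupling of the two classes `W` (matched) and `I` (isolated)
-/

set_option autoImplicit false

open Finset

namespace Pool.Agent.Helper49.RT

open Pool.Agent.Helper6.RT (near row eta clip)

/-- the coupling of both classes -/
theorem combine (W I : Finset ℝ) (hWI : Disjoint W I) {f : ℝ → ℝ} {β τ S R d : ℝ} (hτ : 0 ≤ τ) (hev : ∀ x, f (-x) = f x)
    (hf : ∀ u, |u| ≤ 2 * β → 1 - τ / 2 ≤ f u) (hW : ∀ u ∈ W, ∃ v ∈ W, v ≠ u ∧ |u - v| ≤ β)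
    (hS : 0 ≤ S) (hR : 0 < R) (hd0 : 0 ≤ d) (hI : ∀ u ∈ I, 0 ≤ u ∧ u ≤ S)
    (hd : ∀ u v, 0 ≤ u → u ≤ R → 0 ≤ v → v ≤ R → d ≤ eta (f u) + eta (f v) + eta (f (u + v))) :
    ∃ c : ℝ → ℝ → ℝ, (∀ u v, c u v = c v u) ∧ (∀ u, c u u = 0) ∧ (∀ u ∈ W ∪ I, ∑ v ∈ W ∪ I, |c u v| ≤ 1) ∧
      (W.card : ℝ) * (1 - τ) + d * (I.card - 2 - 2 * S / R) ≤
        ∑ u ∈ W ∪ I, ∑ v ∈ W ∪ I, (2 * f (u - v) * c u v - c u v ^ 2) := by
  obtain ⟨a, a1, a2, a3, a4, a5, a6⟩ := near W hW
  obtain ⟨e, e1, e2, e3, e4, e5⟩ := row I hS hR hd0 hI hev hd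
  have aW : ∀ u v, (u ∉ W ∨ v ∉ W) → a u v = 0 := by
    intro u v h
    by_contra h'
    have := a4 u v h'
    tauto
  have eI : ∀ u v, (u ∉ I ∨ v ∉ I) → e u v = 0 := by
    intro u v h
    by_contra h'
    have := e3 u v h'
    tauto
  have hWn : ∀ u ∈ W, u ∉ I := fun u h h' => disjoint_left.1 hWI h h'
  have hIn : ∀ u ∈ I, u ∉ W := fun u h h' => disjoint_left.1 hWI h' h
  refine ⟨fun u v => a u v + e u v, fun u v => ?_, fun u => ?_, fun u hu => ?_, ?_⟩
  · show a u v + e u v = a v u + e v u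
    rw [a1, e1]
  · show a u u + e u u = 0
    rw [a2, e2, add_zero]
  · show ∑ v ∈ W ∪ I, |a u v + e u v| ≤ 1
    rw [sum_union hWI]
    rcases mem_union.1 hu with h | h
    · have h1 : ∑ v ∈ W, |a u v + e u v| = ∑ v ∈ W, a u v := by
        refine sum_congr rfl fun v _ => ?_
        rw [eI u v (Or.inl (hWn u h)), add_zero, abs_of_nonneg (a3 u v)]
      have h2 : ∑ v ∈ I, |a u v + e u v| = 0 := by
        refine sum_eq_zero fun v hv => ?_
        rw [eI u v (Or.inl (hWn u h)), aW u v (Or.inr (hIn v hv))]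
        simp
      rw [h1, h2, add_zero]
      exact a5 u h
    · have h1 : ∑ v ∈ W, |a u v + e u v| = 0 := by
        refine sum_eq_zero fun v hv => ?_
        rw [eI u v (Or.inr (hWn v hv)), aW u v (Or.inl (hIn u h))]
        simp
      have h2 : ∑ v ∈ I, |a u v + e u v| = ∑ v ∈ I, |e u v| := by
        refine sum_congr rfl fun v _ => ?_
        rw [aW u v (Or.inl (hIn u h)), zero_add]
      rw [h1, h2, zero_add]
      exact e4 u h
  · show (W.card : ℝ) * (1 - τ) + d * (I.card - 2 - 2 * S / R) ≤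
        ∑ u ∈ W ∪ I, ∑ v ∈ W ∪ I, (2 * f (u - v) * (a u v + e u v) - (a u v + e u v) ^ 2)
    have h1 : ∑ u ∈ W, ∑ v ∈ W ∪ I, (2 * f (u - v) * (a u v + e u v) - (a u v + e u v) ^ 2) =
        ∑ u ∈ W, ∑ v ∈ W, (2 * f (u - v) * a u v - a u v ^ 2) := by
      refine sum_congr rfl fun u hu => ?_
      rw [sum_union hWI]
      have h2 : ∑ v ∈ I, (2 * f (u - v) * (a u v + e u v) - (a u v + e u v) ^ 2) = 0 := by
        refine sum_eq_zero fun v hv => ?_
        rw [eI u v (Or.inl (hWn u hu)), aW u v (Or.inr (hIn v hv))]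
        ring
      rw [h2, add_zero]
      refine sum_congr rfl fun v _ => ?_
      rw [eI u v (Or.inl (hWn u hu)), add_zero]
    have h2 : ∑ u ∈ I, ∑ v ∈ W ∪ I, (2 * f (u - v) * (a u v + e u v) - (a u v + e u v) ^ 2) =
        ∑ u ∈ I, ∑ v ∈ I, (2 * f (u - v) * e u v - e u v ^ 2) := by
      refine sum_congr rfl fun u hu => ?_
      rw [sum_union hWI]
      have h3 : ∑ v ∈ W, (2 * f (u - v) * (a u v + e u v) - (a u v + e u v) ^ 2) = 0 := by
        refine sum_eq_zero fun v hv => ?_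
        rw [eI u v (Or.inr (hWn v hv)), aW u v (Or.inl (hIn u hu))]
        ring
      rw [h3, zero_add]
      refine sum_congr rfl fun v _ => ?_
      rw [aW u v (Or.inl (hIn u hu)), zero_add]
    rw [sum_union hWI, h1, h2]
    have h3 : (W.card : ℝ) * (1 - τ) ≤ ∑ u ∈ W, ∑ v ∈ W, (2 * f (u - v) * a u v - a u v ^ 2) := by
      have h4 : ∑ u ∈ W, ∑ v ∈ W, (2 * a u v - a u v ^ 2) - τ * ∑ u ∈ W, ∑ v ∈ W, a u v ≤
          ∑ u ∈ W, ∑ v ∈ W, (2 * f (u - v) * a u v - a u v ^ 2) := by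
        rw [mul_sum, ← sum_sub_distrib]
        refine sum_le_sum fun u _ => ?_
        rw [mul_sum, ← sum_sub_distrib]
        refine sum_le_sum fun v _ => ?_
        by_cases h5 : a u v = 0
        · rw [h5]; simp
        · have h6 := hf (u - v) (a4 u v h5).2.2
          have h7 := a3 u v
          nlinarith [mul_le_mul_of_nonneg_right h6 h7]
      have h5 : ∑ u ∈ W, ∑ v ∈ W, a u v ≤ W.card := by
        calc ∑ u ∈ W, ∑ v ∈ W, a u v ≤ ∑ u ∈ W, (1:ℝ) := sum_le_sum fun u hu => a5 u hu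
          _ = _ := by simp
      have h6 := mul_le_mul_of_nonneg_left h5 hτ
      linarith
    linarith

/-- `eta` is Lipschitz with constant `1/2` -/
lemma eta_lip (g h : ℝ) : eta g - |h - g| / 2 ≤ eta h := by
  unfold eta clip
  have a1 := le_abs_self (h - g)
  have a2 := neg_abs_le (h - g)
  rcases le_total g (1 / 4) with g1 | g1
  · rcases le_total (-(1 / 4)) g with g2 | g2
    · rw [min_eq_right g1, max_eq_right g2]
      rcases le_total h (1 / 4) with h1 | h1
      · rcases le_total (-(1 / 4)) h with h2 | h2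
        · rw [min_eq_right h1, max_eq_right h2]
          rcases le_total g h with h3 | h3 <;> nlinarith
        · rw [min_eq_right h1, max_eq_left h2]
          nlinarith
      · rw [min_eq_left h1, max_eq_right (by norm_num : -(1/4:ℝ) ≤ 1/4)]
        nlinarith
    · rw [min_eq_right g1, max_eq_left g2]
      rcases le_total h (1 / 4) with h1 | h1
      · rcases le_total (-(1 / 4)) h with h2 | h2
        · rw [min_eq_right h1, max_eq_right h2]
          nlinarith
        · rw [min_eq_right h1, max_eq_left h2]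
          nlinarith
      · rw [min_eq_left h1, max_eq_right (by norm_num : -(1/4:ℝ) ≤ 1/4)]
        nlinarith
  · rw [min_eq_left g1, max_eq_right (by norm_num : -(1/4:ℝ) ≤ 1/4)]
    rcases le_total h (1 / 4) with h1 | h1
    · rcases le_total (-(1 / 4)) h with h2 | h2
      · rw [min_eq_right h1, max_eq_right h2]
        nlinarith
      · rw [min_eq_right h1, max_eq_left h2]
        nlinarith
    · rw [min_eq_left h1, max_eq_right (by norm_num : -(1/4:ℝ) ≤ 1/4)]
      nlinarith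

end Pool.Agent.Helper49.RT
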