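import Pool.Agent.Helper6.HM.Zeros

/-!
# RT project: few zeros near the ends of `[0, T]`
-/

set_option autoImplicit false

open Finset Filter Topology

namespace Pool.Agent.Helper49.RT

open Pool.Agent.Helper57.LH Pool.Agent.Helper57.PC Pool.Agent.Helper57.Zeta
open Pool.Agent.Helper6.HM (one_le_mult)

lemma Zf_mono {s t : ℝ} (h : s ≤ t) : Zf s ⊆ Zf t := by
  intro ρ hρ
  rw [mem_Zf] at hρ ⊢
  exact ⟨hρ.1, hρ.2.1, hρ.2.2.trans h⟩

lemma card_le_NT {T : ℝ} {X : Finset ℂ} (hX : X ⊆ Zf T) : (X.card : ℝ) ≤ ∑ ρ ∈ X, (mult ρ : ℝ) := by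
  rw [card_eq_sum_ones, Nat.cast_sum]
  refine sum_le_sum fun ρ hρ => ?_
  exact_mod_cast one_le_mult (hX hρ)

open Classical in
/-- the zeros up to `T` with ordinate outside `(1, T - 1]` -/
noncomputable def Ed (T : ℝ) : Finset ℂ := (Zf T).filter (fun ρ => ¬ (1 < ρ.im ∧ ρ.im ≤ T - 1))

/-- few zeros have ordinate in `[0,1]` or in `(T-1,T]` -/
theorem edge {ε : ℝ} (hε : 0 < ε) : ∀ᶠ T : ℝ in atTop, ((Ed T).card : ℝ) ≤ ε * SN T := by
  classical
  set e : ℝ := min (ε / 8) (1 / 2) with he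
  have he0 : 0 < e := by rw [he]; positivity
  have he1 : e ≤ ε / 8 := min_le_left _ _
  have he2 : e ≤ 1 / 2 := min_le_right _ _
  obtain ⟨T₁, h1⟩ := NT_upper e he0
  obtain ⟨T₂, h2⟩ := NT_lower e he0
  filter_upwards [eventually_ge_atTop (max T₁ 3), eventually_ge_atTop (T₂ + 1), eventually_ge_atTop (2 / e),
    eventually_ge_atTop (8 * Real.pi * NT 1 / ε)] with T hT1 hT2 hT3 hT4
  have hT : 3 ≤ T := le_trans (le_max_right _ _) hT1
  have hT0 : 0 < T := by linarith
  have hpi := Real.pi_pos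
  have hlog : 1 ≤ Real.log T := by
    have h5 : Real.log (Real.exp 1) ≤ Real.log T := by
      apply Real.log_le_log (Real.exp_pos 1)
      have := Real.exp_one_lt_d9; linarith
    rwa [Real.log_exp] at h5
  have hS : 0 < SN T := SN_pos (by linarith)
  -- the upper end
  have a1 : NT T ≤ (1 + e) * SN T := h1 T (le_trans (le_max_left _ _) hT1)
  have a2 : (1 - e) * SN (T - 1) ≤ NT (T - 1) := h2 (T - 1) (by linarith)
  have a3 : (1 - e) * SN T ≤ SN (T - 1) := by
    have b1 : Real.log T - 1 / (T - 1) ≤ Real.log (T - 1) := by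
      have h6 := Real.log_le_sub_one_of_pos (show 0 < T / (T - 1) by apply div_pos <;> linarith)
      rw [Real.log_div (by linarith) (by linarith)] at h6
      have h7 : T / (T - 1) - 1 = 1 / (T - 1) := by
        have : T - 1 ≠ 0 := by linarith
        field_simp
        try ring
      linarith
    have b2 : T * Real.log T - 1 - Real.log T ≤ (T - 1) * Real.log (T - 1) := by
      have h6 := mul_le_mul_of_nonneg_left b1 (show 0 ≤ T - 1 by linarith)
      have h7 : (T - 1) * (Real.log T - 1 / (T - 1)) = T * Real.log T - Real.log T - 1 := by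
        have : T - 1 ≠ 0 := by linarith
        field_simp
      linarith
    have b3 : 1 + Real.log T ≤ e * (T * Real.log T) := by
      have h6 : 2 ≤ e * T := by rw [div_le_iff₀ he0] at hT3; linarith
      nlinarith
    unfold SN
    rw [← mul_div_assoc]
    apply div_le_div_of_nonneg_right _ (by positivity)
    linarith
  have a4 : NT T - NT (T - 1) ≤ 4 * e * SN T := by
    have h6 : (1 - e) * ((1 - e) * SN T) ≤ (1 - e) * SN (T - 1) := mul_le_mul_of_nonneg_left a3 (by linarith)
    have h7 : (1 - e) * ((1 - e) * SN T) = SN T - 2 * (e * SN T) + e * (e * SN T) := by ring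
    have h8 : 0 ≤ e * SN T := by positivity
    have h9 : 0 ≤ e * (e * SN T) := by positivity
    have h10 : (1 + e) * SN T = SN T + e * SN T := by ring
    have h11 : 4 * e * SN T = 4 * (e * SN T) := by ring
    rw [h11]
    linarith
  -- the lower end
  have a5 : NT 1 ≤ ε / 4 * SN T := by
    have h6 : 8 * Real.pi * NT 1 ≤ T * ε := by rwa [div_le_iff₀ hε] at hT4
    unfold SN
    rw [← mul_div_assoc, le_div_iff₀ (by positivity)]
    have h7 : T * ε ≤ T * ε * Real.log T := le_mul_of_one_le_right (by positivity) hlog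
    linarith
  -- counting
  have hsub : Ed T ⊆ Zf 1 ∪ (Zf T \ Zf (T - 1)) := by
    intro ρ hρ
    unfold Ed at hρ
    rw [mem_filter] at hρ
    rw [mem_union]
    by_cases h6 : ρ.im ≤ 1
    · left
      rw [mem_Zf] at hρ ⊢
      exact ⟨hρ.1.1, hρ.1.2.1, h6⟩
    · right
      rw [Finset.mem_sdiff]
      refine ⟨hρ.1, fun h7 => ?_⟩
      rw [mem_Zf] at h7
      exact hρ.2 ⟨by linarith, h7.2.2⟩
  have c1 : ((Ed T).card : ℝ) ≤ (Zf 1).card + (Zf T \ Zf (T - 1)).card := by
    exact_mod_cast (card_le_card hsub).trans (card_union_le _ _)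
  have c2 : ((Zf 1).card : ℝ) ≤ NT 1 := card_le_NT (T := 1) (subset_refl _)
  have c3 : (((Zf T \ Zf (T - 1)).card : ℕ) : ℝ) ≤ NT T - NT (T - 1) := by
    refine (card_le_NT (T := T) sdiff_subset).trans (le_of_eq ?_)
    unfold NT
    rw [← sum_sdiff (Zf_mono (show T - 1 ≤ T by linarith))]
    ring
  nlinarith

end Pool.Agent.Helper49.RT
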