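import Pool.Agent.Helper49.RT.Split
import Pool.Agent.Helper49.RT.Comb
import Pool.Agent.Helper49.RT.Edge
import Pool.Agent.Helper66.RT.Fin
import Pool.Agent.Helper6.RT.Zeros3

/-!
# RT project: box version, assembly

`Iso T β`: the simple critical zeros without another zero in the box `|Im| ≤ β 2π/log T`, `|Re - 1/2| ≤ 5/log T`.
-/

set_option autoImplicit false

open Finset Filter Topology MeasureTheory

namespace Pool.Agent.Helper49.RT

open Pool.Agent.Helper57.LH Pool.Agent.Helper57.PC Pool.Agent.Helper57.Zeta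
open Pool.Agent.Helper57.FL (ff)
open Pool.Agent.Helper6.HM (lev one_le_mult Sc mem_Sc lev_inj)
open Pool.Agent.Helper99.HZ (hh)
open Pool.Agent.Helper66.RT (Wt Gp Gp_even Gp_near Gam CMT CMT_le exists_weight trace_up gain)
open Pool.Agent.Helper6.RT (zeros3)

/-- a foreign zero (not simple critical) in the box of `ρ` -/
def Nb (T β : ℝ) (ρ : ℂ) : Prop :=
  ∃ σ ∈ Zf T, σ ∉ Sc T ∧ |lev T ρ - lev T σ| ≤ β ∧ |σ.re - 1 / 2| * Real.log T ≤ 5

/-- near levels -/
def Rb (T β : ℝ) (ρ σ : ℂ) : Prop := σ ≠ ρ ∧ |lev T ρ - lev T σ| ≤ β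

open Classical in
/-- the simple critical zeros alone in their box -/
noncomputable def Iso (T β : ℝ) : Finset ℂ := (Sc T).filter (fun ρ => ¬ Nb T β ρ ∧ ∀ σ ∈ Sc T, ¬ Rb T β ρ σ)

/-- the count for one height -/
theorem count3 {T β τ d : ℝ} (hT : 1 < T) {p : ℝ → ℝ} {b : ℝ} (hp : Wt p b) (hβ : 2 * β ≤ 1 / 10) (_hβ0 : 0 ≤ β)
    (hτ : 0 ≤ τ) (hf : ∀ u, |u| ≤ 2 * β → 1 - τ / 2 ≤ Gp p u) (hd0 : 0 ≤ d) (hd1 : d + τ ≤ 1)
    (hd : ∀ u v : ℝ, 0 ≤ u → u ≤ 10 → 0 ≤ v → v ≤ 10 →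
      d ≤ Pool.Agent.Helper6.RT.eta (Gp p u) + Pool.Agent.Helper6.RT.eta (Gp p v) + Pool.Agent.Helper6.RT.eta (Gp p (u + v))) :
    2 * NT T - (Iso T β).card * (1 - d - τ) - τ * NT T - d * (2 + 2 * SN T / 10) ≤ SN T * ∫ u, hh p u * ff T u := by
  classical
  have hS0 : 0 < SN T := SN_pos hT
  have hlog : 0 < Real.log T := Real.log_pos hT
  have hpi := Real.pi_pos
  obtain ⟨A, W, I, h0, hAW, hAI, hWI, hA, hW, hI⟩ := split (Sc T) (Nb T β) (Rb T β)
    (fun a b h => ⟨h.1.symm, by rw [abs_sub_comm]; exact h.2⟩)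
  have sA : A ⊆ Sc T := by rw [← h0]; exact (subset_union_left).trans subset_union_left
  have sW : W ⊆ Sc T := by rw [← h0]; exact (subset_union_right).trans subset_union_left
  have sI : I ⊆ Sc T := by rw [← h0]; exact subset_union_right
  have hinj : ∀ X ⊆ Sc T, Set.InjOn (lev T) (X : Set ℂ) := fun X hX ρ hρ σ hσ h => lev_inj hT ρ (hX hρ) σ (hX hσ) h
  have hdis : Disjoint (W.image (lev T)) (I.image (lev T)) := by
    rw [disjoint_left]
    intro u h1 h2
    obtain ⟨ρ, hρ, rfl⟩ := mem_image.1 h1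
    obtain ⟨σ, hσ, h3⟩ := mem_image.1 h2
    have := lev_inj hT σ (sI hσ) ρ (sW hρ) h3
    exact disjoint_left.1 hWI hρ (this ▸ hσ)
  obtain ⟨c, c1, c2, c3, c4⟩ := combine (W.image (lev T)) (I.image (lev T)) hdis (f := Gp p) (β := β) (τ := τ) (S := SN T)
    (R := 10) (d := d) hτ (Gp_even p) hf
    (by
      intro u hu
      obtain ⟨ρ, hρ, rfl⟩ := mem_image.1 hu
      obtain ⟨σ, hσ, h1, h2⟩ := hW ρ hρ
      exact ⟨lev T σ, mem_image_of_mem _ hσ, fun h => h1 (lev_inj hT σ (sW hσ) ρ (sW hρ) h), h2⟩)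
    hS0.le (by norm_num) hd0
    (by
      intro u hu
      obtain ⟨ρ, hρ, rfl⟩ := mem_image.1 hu
      have h1 := (mem_Zf.1 (mem_Sc.1 (sI hρ)).1).2
      unfold lev SN
      constructor
      · have := h1.1
        positivity
      · gcongr
        exact h1.2) hd
  have hQ : (W ∪ I).image (lev T) = W.image (lev T) ∪ I.image (lev T) := image_union _ _
  have sQ : W ∪ I ⊆ Sc T := union_subset sW sI
  have hsum : ∀ f : ℝ → ℝ, ∑ u ∈ W.image (lev T) ∪ I.image (lev T), f u = ∑ ρ ∈ W ∪ I, f (lev T ρ) := by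
    intro f
    rw [← hQ]
    exact sum_image (hinj _ sQ)
  have hz := zeros3 hT hp (W ∪ I) A (fun ρ hρ => sQ hρ)
    (fun ρ hρ => ⟨sA hρ, by
      rw [mem_union]
      rintro (h | h)
      · exact disjoint_left.1 hAW hρ h
      · exact disjoint_left.1 hAI hρ h⟩)
    (fun ρ hρ => by
      rw [← h0, mem_union, mem_union] at hρ
      rw [mem_union]
      tauto)
    (fun ρ hρ => by
      rcases hA ρ hρ with h | ⟨τ', hτ', h1, h2⟩
      · obtain ⟨σ, h3, h4, h5, h6⟩ := h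
        exact ⟨σ, h3, h4, by linarith, h6⟩
      · obtain ⟨σ, h3, h4, h5, h6⟩ := h2
        refine ⟨σ, h3, h4, ?_, h6⟩
        have h7 := abs_sub_le (lev T ρ) (lev T τ') (lev T σ)
        linarith [h1.2])
    c1 c2
    (fun ρ hρ => by
      have h1 := c3 (lev T ρ) (by rw [← hQ]; exact mem_image_of_mem _ hρ)
      rwa [hsum] at h1)
  rw [hsum] at c4
  simp only [hsum] at c4
  rw [card_image_of_injOn (hinj _ sW), card_image_of_injOn (hinj _ sI)] at c4
  have hcard : ((W ∪ I).card : ℝ) = W.card + I.card := by exact_mod_cast card_union_of_disjoint hWI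
  rw [hcard] at hz
  have hWN : (W.card : ℝ) + I.card ≤ NT T := by
    have h1 : W ∪ I ⊆ Zf T := fun ρ hρ => (mem_Sc.1 (sQ hρ)).1
    rw [← hcard]
    calc ((W ∪ I).card : ℝ) ≤ ∑ ρ ∈ W ∪ I, (mult ρ : ℝ) := card_le_NT h1
      _ ≤ NT T := sum_le_sum_of_subset_of_nonneg h1 fun _ _ _ => Nat.cast_nonneg _
  have hII : (I.card : ℝ) ≤ (Iso T β).card := by
    have h1 : I ⊆ Iso T β := by
      intro ρ hρ
      unfold Iso
      rw [mem_filter]
      exact ⟨sI hρ, hI ρ hρ⟩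
    exact_mod_cast card_le_card h1
  have h1 := mul_le_mul_of_nonneg_left hWN hτ
  have h2 := mul_le_mul_of_nonneg_right hII (show 0 ≤ 1 - d - τ by linarith)
  nlinarith

lemma arith3 {x d S a N e E : ℝ} (hx : 13 / 20 ≤ x) (hd0 : 0 < d) (he : e = d / 200) (hS : 20 ≤ S) (hd1 : d ≤ 1 / 10)
    (hN1 : (1 - e) * S ≤ N) (hN2 : N ≤ 2 * S) (hE : E ≤ e * S)
    (h : 2 * N - a * (1 - d) - e * N - d * (2 + 2 * S / 10) ≤ S * (2 - x + 2 * e)) : (x + d / 10) * S ≤ a - E := by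
  subst he
  by_contra hlt
  push Not at hlt
  have h1 : 0 < 1 - d := by linarith
  have h2 : (1 - d) * a < (1 - d) * ((x + d / 10) * S + d / 200 * S) := mul_lt_mul_of_pos_left (by linarith) h1
  have h3 : d / 200 * N ≤ d / 200 * (2 * S) := mul_le_mul_of_nonneg_left hN2 (by positivity)
  have h4 : d * 20 ≤ d * S := mul_le_mul_of_nonneg_left hS hd0.le
  have h5 : (1 - d) * ((x + d / 10) * S + d / 200 * S) ≤ (x - 1 / 2 * d) * S := by
    have h6 : (1 - d) * (x + d / 10 + d / 200) ≤ x - 1 / 2 * d := by nlinarith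
    calc (1 - d) * ((x + d / 10) * S + d / 200 * S) = ((1 - d) * (x + d / 10 + d / 200)) * S := by ring
      _ ≤ _ := mul_le_mul_of_nonneg_right h6 (by linarith)
  nlinarith

open Classical in
/-- **the limit** -/
theorem final3 : ∃ β κ T₀ : ℝ, 0 < β ∧ β ≤ 1 / 20 ∧ 2 - CMT < κ ∧ ∀ T : ℝ, T₀ ≤ T → κ * SN T ≤ ((Iso T β \ Ed T).card : ℝ) := by
  obtain ⟨d₀, hd₀, hd₀'⟩ := gain (R := 10) (by norm_num)
  obtain ⟨d, hd⟩ : ∃ d, d = min (d₀ / 2) (1 / 10) := ⟨_, rfl⟩
  have hd0 : 0 < d := by rw [hd]; positivity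
  have hd1 : d ≤ 1 / 10 := by rw [hd]; exact min_le_right _ _
  have hdd : d ≤ d₀ / 2 := by rw [hd]; exact min_le_left _ _
  obtain ⟨e, he⟩ : ∃ e, e = d / 200 := ⟨_, rfl⟩
  have he0 : 0 < e := by rw [he]; positivity
  have he1 : e ≤ 1 := by rw [he]; linarith
  obtain ⟨p, b, hp, hen, hcl⟩ := exists_weight he0
  obtain ⟨T₁, hT₁⟩ := NT_lower e he0
  obtain ⟨T₂, hT₂⟩ := NT_upper 1 one_pos
  obtain ⟨T₃, hT₃⟩ := Filter.eventually_atTop.1 (trace_up hp he0)
  obtain ⟨T₄, hT₄⟩ := Filter.eventually_atTop.1 (edge he0)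
  have hβ : 0 < e / 20 := by positivity
  refine ⟨e / 20, 2 - CMT + d / 10, max (max T₁ T₂) (max T₃ (max T₄ 200)), hβ, by linarith, by linarith, fun T hT => ?_⟩
  have g1 : T₁ ≤ T := ((le_max_left _ _).trans (le_max_left _ _)).trans hT
  have g2 : T₂ ≤ T := ((le_max_right _ _).trans (le_max_left _ _)).trans hT
  have g3 : T₃ ≤ T := ((le_max_left _ _).trans (le_max_right _ _)).trans hT
  have g4 : T₄ ≤ T := ((le_max_left _ _).trans ((le_max_right _ _).trans (le_max_right _ _))).trans hT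
  have g5 : 200 ≤ T := ((le_max_right _ _).trans ((le_max_right _ _).trans (le_max_right _ _))).trans hT
  have hT1 : 1 < T := by linarith
  have hpi := Real.pi_pos
  have hpi4 := Real.pi_lt_four
  have hlog : 1 ≤ Real.log T := by
    rw [Real.le_log_iff_exp_le (by linarith)]
    have := Real.exp_one_lt_d9
    linarith
  have hSd : SN T = T * Real.log T / (2 * Real.pi) := rfl
  have hS : 20 ≤ SN T := by
    rw [hSd, le_div_iff₀ (by positivity)]
    nlinarith
  have hc := count3 (T := T) (β := e / 20) (τ := e) (d := d) hT1 hp (by linarith) hβ.le he0.le (by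
      intro u hu
      refine le_trans ?_ (Gp_near hp u)
      have h1 : u ^ 2 ≤ (2 * (e / 20)) ^ 2 := by
        rw [← sq_abs]
        exact pow_le_pow_left₀ (abs_nonneg _) hu 2
      have h2 : (Real.pi * u) ^ 2 ≤ 12 * (2 * (e / 20)) ^ 2 := by
        rw [mul_pow]
        have h3 : Real.pi ^ 2 ≤ 12 := by
          have := Real.pi_lt_d2
          nlinarith
        exact mul_le_mul h3 h1 (sq_nonneg _) (by norm_num)
      nlinarith) hd0.le (by linarith)
    (fun u v h1 h2 h3 h4 => by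
      have q := hd₀' u v h1 h2 h3 h4
      have q1 := eta_lip (Gam u) (Gp p u)
      have q2 := eta_lip (Gam v) (Gp p v)
      have q3 := eta_lip (Gam (u + v)) (Gp p (u + v))
      have r1 := hcl u
      have r2 := hcl v
      have r3 := hcl (u + v)
      have s : ∀ g, Pool.Agent.Helper66.RT.eta g = Pool.Agent.Helper6.RT.eta g := fun g => rfl
      rw [s, s, s] at q
      linarith)
  have h1 := hT₁ T g1
  have h2 := hT₂ T g2
  have h3 := hT₃ T g3
  have h4 := hT₄ T g4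
  have hx : 13 / 20 ≤ 2 - CMT := by
    have := CMT_le
    linarith
  have h5 : SN T * ∫ u, hh p u * ff T u ≤ SN T * (CMT + e + e) :=
    mul_le_mul_of_nonneg_left (h3.trans (by linarith)) (by linarith)
  have h6 : ((Iso T (e / 20)).card : ℝ) - (Ed T).card ≤ ((Iso T (e / 20) \ Ed T).card : ℝ) := by
    have := le_card_sdiff (Ed T) (Iso T (e / 20))
    have h7 : (Iso T (e / 20)).card ≤ (Iso T (e / 20) \ Ed T).card + (Ed T).card := by omega
    have h8 : ((Iso T (e / 20)).card : ℝ) ≤ ((Iso T (e / 20) \ Ed T).card : ℝ) + (Ed T).card := by exact_mod_cast h7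
    linarith
  refine (arith3 (e := e) (N := NT T) hx hd0 he hS hd1 h1 ?_ h4 ?_).trans h6
  · refine h2.trans (le_of_eq ?_)
    rw [← hSd]
    ring
  · have e2 : SN T * (2 - (2 - CMT) + 2 * e) = SN T * (CMT + e + e) := by ring
    rw [e2]
    refine le_trans ?_ (hc.trans h5)
    have h8 : 0 ≤ ((Iso T (e / 20)).card : ℝ) * e := by positivity
    linarith

open Classical in
/-- the simple critical zeros `ρ` up to `T` such that every other zero `σ` of zeta with `|Re σ - 1/2| ≤ 5/log T` has normalised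
distance of ordinates `> b` from `ρ` -/
noncomputable def Is3 (T b : ℝ) : Finset ℂ := (Zf T).filter (fun ρ => ρ.re = 1 / 2 ∧ mult ρ = 1 ∧
  ∀ σ : ℂ, IsNontrivialZero σ → σ ≠ ρ → |σ.re - 1 / 2| * Real.log T ≤ 5 → b < |lev T ρ - lev T σ|)

lemma sub_Is3 {T β : ℝ} (hlog : 1 ≤ Real.log T) (hβ : β ≤ 1 / 20) : Iso T β \ Ed T ⊆ Is3 T β := by
  classical
  intro ρ hρ
  rw [Finset.mem_sdiff] at hρ
  obtain ⟨h1, h2⟩ := hρ
  unfold Iso at h1
  rw [mem_filter, mem_Sc] at h1
  obtain ⟨⟨h3, h4, h5⟩, h6, h7⟩ := h1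
  have h8 : 1 < ρ.im ∧ ρ.im ≤ T - 1 := by
    by_contra h
    apply h2
    unfold Ed
    rw [mem_filter]
    exact ⟨h3, h⟩
  unfold Is3
  rw [mem_filter]
  refine ⟨h3, h4, h5, fun σ hσ hne hre => ?_⟩
  by_contra hle
  push Not at hle
  have hpi := Real.pi_pos
  have hpi4 := Real.pi_lt_four
  have h9 : |ρ.im - σ.im| ≤ 1 := by
    have e1 : lev T ρ - lev T σ = (ρ.im - σ.im) * (Real.log T / (2 * Real.pi)) := by
      unfold lev
      ring
    rw [e1, abs_mul, abs_of_pos (by positivity : 0 < Real.log T / (2 * Real.pi))] at hle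
    have h10 : |ρ.im - σ.im| * (1 / (2 * Real.pi)) ≤ 1 / 20 := by
      refine le_trans ?_ (hle.trans hβ)
      exact mul_le_mul_of_nonneg_left (div_le_div_of_nonneg_right hlog (by positivity)) (abs_nonneg _)
    rw [mul_one_div, div_le_iff₀ (by positivity)] at h10
    linarith
  have h10 := abs_le.1 h9
  have h11 : σ ∈ Zf T := by
    rw [mem_Zf]
    exact ⟨hσ, by linarith, by linarith⟩
  by_cases h12 : σ ∈ Sc T
  · exact h7 σ h12 ⟨hne, hle⟩
  · exact h6 ⟨σ, h11, h12, hle, hre⟩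

/-- **more than `(2 - 1/c_MT) N(T)` zeros up to `T` are simple, on the line and alone in their box** -/
theorem final4 : ∃ b κ T₀ : ℝ, 0 < b ∧ 2 - CMT < κ ∧ ∀ T : ℝ, T₀ ≤ T → κ * SN T ≤ ((Is3 T b).card : ℝ) := by
  obtain ⟨β, κ, T₀, h1, h2, h3, h4⟩ := final3
  refine ⟨β, κ, max T₀ 3, h1, h3, fun T hT => ?_⟩
  have hlog : 1 ≤ Real.log T := by
    rw [Real.le_log_iff_exp_le (by linarith [le_max_right T₀ 3])]
    have := Real.exp_one_lt_d9
    linarith [le_max_right T₀ 3]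
  refine (h4 T ((le_max_left _ _).trans hT)).trans ?_
  exact_mod_cast card_le_card (sub_Is3 hlog h2)

end Pool.Agent.Helper49.RT
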