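import Pool.Agent.Helper49.RT.Comb2
import Pool.Agent.Helper49.RT.Fin3

/-!
# RT project: the counts with a general correlation `g`

`count6`: box version (`Iso T β`). `count7`: partners on the line (`Is T β` of `Helper66.RT`).
-/

set_option autoImplicit false

open Finset Filter Topology MeasureTheory

namespace Pool.Agent.Helper49.RT

open Pool.Agent.Helper57.LH Pool.Agent.Helper57.PC Pool.Agent.Helper57.Zeta
open Pool.Agent.Helper57.FL (ff)
open Pool.Agent.Helper6.HM (lev one_le_mult Sc mem_Sc lev_inj)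
open Pool.Agent.Helper99.HZ (hh)
open Pool.Agent.Helper66.RT (Wt Gp Gp_even Gp_near Gam Cr Nr Is lev_inj')
open Pool.Agent.Helper6.RT (zeros3 zeros_ineq eta)

lemma close6 {N I W S d g K : ℝ} (hWN : W + I ≤ N) (hg1 : g ≤ 1) (hg0 : 0 < g)
    (h : 2 * N - (W + I) + (g ^ 2 * W + d * (I - 2 - 2 * S / 20)) ≤ K) :
    (1 + g ^ 2) * N - I * (g ^ 2 - d) - d * (2 + 2 * S / 20) ≤ K := by
  have h1 : g ^ 2 ≤ 1 := by nlinarith
  have h2 := mul_le_mul_of_nonneg_left hWN (show 0 ≤ 1 - g ^ 2 by linarith)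
  nlinarith

theorem count6 {T β g d : ℝ} (hT : 1 < T) {p : ℝ → ℝ} {b : ℝ} (hp : Wt p b) (hβ : 2 * β ≤ 1 / 10)
    (hg0 : 0 < g) (hg1 : g ≤ 1) (hf : ∀ u, |u| ≤ β → g ≤ Gp p u) (hd0 : 0 ≤ d) (hd1 : d ≤ g ^ 2)
    (hd : ∀ u v : ℝ, 0 ≤ u → u ≤ 20 → 0 ≤ v → v ≤ 20 → d ≤ eta (Gp p u) + eta (Gp p v) + eta (Gp p (u + v))) :
    (1 + g ^ 2) * NT T - (Iso T β).card * (g ^ 2 - d) - d * (2 + 2 * SN T / 20) ≤ SN T * ∫ u, hh p u * ff T u := by
  classical
  have hS0 : 0 < SN T := SN_pos hT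
  have hlog : 0 < Real.log T := Real.log_pos hT
  have hpi := Real.pi_pos
  obtain ⟨A, W, I, h0, hAW, hAI, hWI, hA, hW, hI⟩ := split (Sc T) (Nb T β) (Rb T β)
    (fun a b h => ⟨h.1.symm, by rw [abs_sub_comm]; exact h.2⟩)
  have sA : A ⊆ Sc T := by rw [← h0]; exact (subset_union_left).trans subset_union_left
  have sW : W ⊆ Sc T := by rw [← h0]; exact (subset_union_right).trans subset_union_left
  have sI : I ⊆ Sc T := by rw [← h0]; exact subset_union_right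
  have hinj : ∀ X ⊆ Sc T, Set.InjOn (lev T) (X : Set ℂ) := fun X hX ρ hρ σ hσ h => lev_inj hT ρ (hX hρ) σ (hX hσ) h
  have hdis : Disjoint (W.image (lev T)) (I.image (lev T)) := by
    rw [disjoint_left]
    intro u h1 h2
    obtain ⟨ρ, hρ, rfl⟩ := mem_image.1 h1
    obtain ⟨σ, hσ, h3⟩ := mem_image.1 h2
    have := lev_inj hT σ (sI hσ) ρ (sW hρ) h3
    exact disjoint_left.1 hWI hρ (this ▸ hσ)
  obtain ⟨c, c1, c2, c3, c4⟩ := combine2 (W.image (lev T)) (I.image (lev T)) hdis (f := Gp p) (s := fun _ => 1) (β := β)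
    (g := g) (S := SN T) (R := 20) (d := d) hg0 hg1 (Gp_even p) hf (fun _ => le_rfl) (fun _ _ => rfl)
    (by
      intro u hu
      obtain ⟨ρ, hρ, rfl⟩ := mem_image.1 hu
      obtain ⟨σ, hσ, h1, h2⟩ := hW ρ hρ
      exact ⟨lev T σ, mem_image_of_mem _ hσ, fun h => h1 (lev_inj hT σ (sW hσ) ρ (sW hρ) h), h2⟩)
    hS0.le (by norm_num) hd0
    (by
      intro u hu
      obtain ⟨ρ, hρ, rfl⟩ := mem_image.1 hu
      have h1 := (mem_Zf.1 (mem_Sc.1 (sI hρ)).1).2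
      unfold lev SN
      constructor
      · have := h1.1
        positivity
      · gcongr
        exact h1.2) hd
  have hQ : (W ∪ I).image (lev T) = W.image (lev T) ∪ I.image (lev T) := image_union _ _
  have sQ : W ∪ I ⊆ Sc T := union_subset sW sI
  have hsum : ∀ f : ℝ → ℝ, ∑ u ∈ W.image (lev T) ∪ I.image (lev T), f u = ∑ ρ ∈ W ∪ I, f (lev T ρ) := by
    intro f
    rw [← hQ]
    exact sum_image (hinj _ sQ)
  have hz := zeros3 hT hp (W ∪ I) A (fun ρ hρ => sQ hρ)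
    (fun ρ hρ => ⟨sA hρ, by
      rw [mem_union]
      rintro (h | h)
      · exact disjoint_left.1 hAW hρ h
      · exact disjoint_left.1 hAI hρ h⟩)
    (fun ρ hρ => by
      rw [← h0, mem_union, mem_union] at hρ
      rw [mem_union]
      tauto)
    (fun ρ hρ => by
      rcases hA ρ hρ with h | ⟨τ', hτ', h1, h2⟩
      · obtain ⟨σ, h3, h4, h5, h6⟩ := h
        have h7 := abs_nonneg (lev T ρ - lev T σ)
        exact ⟨σ, h3, h4, by linarith, h6⟩
      · obtain ⟨σ, h3, h4, h5, h6⟩ := h2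
        refine ⟨σ, h3, h4, ?_, h6⟩
        have h7 := abs_sub_le (lev T ρ) (lev T τ') (lev T σ)
        linarith [h1.2])
    c1 c2
    (fun ρ hρ => by
      have h1 := c3 (lev T ρ) (by rw [← hQ]; exact mem_image_of_mem _ hρ)
      rwa [hsum] at h1)
  rw [hsum] at c4
  simp only [hsum, mul_one] at c4
  rw [card_image_of_injOn (hinj _ sW), card_image_of_injOn (hinj _ sI)] at c4
  have hcard : ((W ∪ I).card : ℝ) = W.card + I.card := by exact_mod_cast card_union_of_disjoint hWI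
  rw [hcard] at hz
  have hWN : (W.card : ℝ) + I.card ≤ NT T := by
    have h1 : W ∪ I ⊆ Zf T := fun ρ hρ => (mem_Sc.1 (sQ hρ)).1
    rw [← hcard]
    calc ((W ∪ I).card : ℝ) ≤ ∑ ρ ∈ W ∪ I, (mult ρ : ℝ) := card_le_NT h1
      _ ≤ NT T := sum_le_sum_of_subset_of_nonneg h1 fun _ _ _ => Nat.cast_nonneg _
  have hII : (I.card : ℝ) ≤ (Iso T β).card := by
    have h1 : I ⊆ Iso T β := by
      intro ρ hρ
      unfold Iso
      rw [mem_filter]
      exact ⟨sI hρ, hI ρ hρ⟩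
    exact_mod_cast card_le_card h1
  have h3 := close6 hWN hg1 hg0 (K := SN T * ∫ u, hh p u * ff T u) (d := d) (S := SN T) (by linarith)
  have h4 := mul_le_mul_of_nonneg_right hII (show 0 ≤ g ^ 2 - d by linarith)
  linarith

theorem count7 {T β g d : ℝ} (hT : 1 < T) {p : ℝ → ℝ} {b : ℝ} (hp : Wt p b)
    (hg0 : 0 < g) (hg1 : g ≤ 1) (hf : ∀ u, |u| ≤ β → g ≤ Gp p u) (hd0 : 0 ≤ d)
    (hd : ∀ u v : ℝ, 0 ≤ u → u ≤ 20 → 0 ≤ v → v ≤ 20 → d ≤ eta (Gp p u) + eta (Gp p v) + eta (Gp p (u + v))) :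
    (1 + g ^ 2) * NT T - (Is T β).card * (g ^ 2 - d) - d * (2 + 2 * SN T / 20) ≤ SN T * ∫ u, hh p u * ff T u := by
  classical
  have hS0 : 0 < SN T := SN_pos hT
  have hlog : 0 < Real.log T := Real.log_pos hT
  have hpi := Real.pi_pos
  have hCr : ∀ ρ ∈ Cr T, ρ ∈ Zf T ∧ ρ.re = 1 / 2 := fun ρ hρ => by
    unfold Cr at hρ
    rwa [Finset.mem_filter] at hρ
  have hCr' : ∀ ρ, ρ ∈ Zf T → ρ.re = 1 / 2 → ρ ∈ Cr T := fun ρ h1 h2 => by
    unfold Cr
    rw [Finset.mem_filter]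
    exact ⟨h1, h2⟩
  have hNr : ∀ ρ ∈ Nr T β, ρ ∈ Cr T ∧ ∃ σ ∈ Cr T, σ ≠ ρ ∧ |lev T ρ - lev T σ| ≤ β := fun ρ hρ => by
    unfold Nr at hρ
    rwa [Finset.mem_filter] at hρ
  have hIs : ∀ ρ ∈ Is T β, ρ ∈ Cr T ∧ mult ρ = 1 ∧ ¬ ∃ σ ∈ Cr T, σ ≠ ρ ∧ |lev T ρ - lev T σ| ≤ β := fun ρ hρ => by
    unfold Is at hρ
    rwa [Finset.mem_filter] at hρ
  have sW : Nr T β ⊆ Cr T := fun ρ hρ => (hNr ρ hρ).1
  have sI : Is T β ⊆ Cr T := fun ρ hρ => (hIs ρ hρ).1
  have hWI : Disjoint (Nr T β) (Is T β) := by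
    rw [Finset.disjoint_left]
    intro ρ h1 h2
    exact (hIs ρ h2).2.2 (hNr ρ h1).2
  have hinj : ∀ X ⊆ Cr T, Set.InjOn (lev T) (X : Set ℂ) := fun X hX ρ hρ σ hσ h =>
    lev_inj' hT (hCr ρ (hX hρ)).2 (hCr σ (hX hσ)).2 h
  have hdis : Disjoint ((Nr T β).image (lev T)) ((Is T β).image (lev T)) := by
    rw [disjoint_left]
    intro u h1 h2
    obtain ⟨ρ, hρ, rfl⟩ := mem_image.1 h1
    obtain ⟨σ, hσ, h3⟩ := mem_image.1 h2
    have := lev_inj' hT (hCr σ (sI hσ)).2 (hCr ρ (sW hρ)).2 h3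
    exact disjoint_left.1 hWI hρ (this ▸ hσ)
  -- the multiplicity as a function of the level
  set s : ℝ → ℝ := fun u => max 1 (Real.sqrt (mult (⟨1 / 2, 2 * Real.pi * u / Real.log T⟩ : ℂ))) with hs
  have hsv : ∀ ρ ∈ Cr T, s (lev T ρ) = Real.sqrt (mult ρ) := by
    intro ρ hρ
    have h1 : (⟨1 / 2, 2 * Real.pi * lev T ρ / Real.log T⟩ : ℂ) = ρ := by
      apply Complex.ext
      · exact (hCr ρ hρ).2.symm
      · show 2 * Real.pi * lev T ρ / Real.log T = ρ.im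
        unfold lev
        field_simp
    have h2 : (1:ℝ) ≤ Real.sqrt (mult ρ) := by
      rw [Real.one_le_sqrt]
      exact_mod_cast one_le_mult (hCr ρ hρ).1
    simp only [hs]
    rw [h1, max_eq_right h2]
  obtain ⟨c, c1, c2, c3, c4⟩ := combine2 ((Nr T β).image (lev T)) ((Is T β).image (lev T)) hdis (f := Gp p) (s := s) (β := β)
    (g := g) (S := SN T) (R := 20) (d := d) hg0 hg1 (Gp_even p) hf (fun _ => le_max_left _ _)
    (by
      intro u hu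
      obtain ⟨ρ, hρ, rfl⟩ := mem_image.1 hu
      rw [hsv ρ (sI hρ), (hIs ρ hρ).2.1]
      simp)
    (by
      intro u hu
      obtain ⟨ρ, hρ, rfl⟩ := mem_image.1 hu
      obtain ⟨h1, σ, h2, h3, h4⟩ := hNr ρ hρ
      have h5 : σ ∈ Nr T β := by
        unfold Nr
        rw [Finset.mem_filter]
        exact ⟨h2, ρ, h1, h3.symm, by rw [abs_sub_comm]; exact h4⟩
      exact ⟨lev T σ, mem_image_of_mem _ h5, fun h => h3 (lev_inj' hT (hCr σ h2).2 (hCr ρ h1).2 h), h4⟩)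
    hS0.le (by norm_num) hd0
    (by
      intro u hu
      obtain ⟨ρ, hρ, rfl⟩ := mem_image.1 hu
      have h1 := (mem_Zf.1 (hCr ρ (sI hρ)).1).2
      unfold lev SN
      constructor
      · have := h1.1
        positivity
      · gcongr
        exact h1.2) hd
  have hQ : (Nr T β ∪ Is T β).image (lev T) = (Nr T β).image (lev T) ∪ (Is T β).image (lev T) := image_union _ _
  have sQ : Nr T β ∪ Is T β ⊆ Cr T := union_subset sW sI
  have hsum : ∀ f : ℝ → ℝ, ∑ u ∈ (Nr T β).image (lev T) ∪ (Is T β).image (lev T), f u =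
      ∑ ρ ∈ Nr T β ∪ Is T β, f (lev T ρ) := by
    intro f
    rw [← hQ]
    exact sum_image (hinj _ sQ)
  have hz := zeros_ineq hT hp (Nr T β ∪ Is T β) (fun ρ hρ => hCr ρ (sQ hρ)) c1 c2
    (fun ρ hρ => by
      have h1 := c3 (lev T ρ) (by rw [← hQ]; exact mem_image_of_mem _ hρ)
      rwa [hsum] at h1)
  rw [hsum] at c4
  simp only [hsum] at c4
  have e1 : ∑ ρ ∈ Nr T β ∪ Is T β, ∑ σ ∈ Nr T β ∪ Is T β, (2 * (s (lev T ρ) * s (lev T σ)) * Gp p (lev T ρ - lev T σ) *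
      c (lev T ρ) (lev T σ) - c (lev T ρ) (lev T σ) ^ 2) = ∑ ρ ∈ Nr T β ∪ Is T β, ∑ σ ∈ Nr T β ∪ Is T β,
      (2 * (Real.sqrt (mult ρ) * Real.sqrt (mult σ)) * Gp p (lev T ρ - lev T σ) *
      c (lev T ρ) (lev T σ) - c (lev T ρ) (lev T σ) ^ 2) := by
    refine sum_congr rfl fun ρ hρ => sum_congr rfl fun σ hσ => ?_
    rw [hsv ρ (sQ hρ), hsv σ (sQ hσ)]
  rw [e1, card_image_of_injOn (hinj _ sW), card_image_of_injOn (hinj _ sI)] at c4
  have hcard : ((Nr T β ∪ Is T β).card : ℝ) = (Nr T β).card + (Is T β).card := by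
    exact_mod_cast card_union_of_disjoint hWI
  have hsubZ : Nr T β ∪ Is T β ⊆ Zf T := fun ρ hρ => (hCr ρ (sQ hρ)).1
  have hWN : ((Nr T β).card : ℝ) + (Is T β).card ≤ NT T := by
    rw [← hcard]
    calc ((Nr T β ∪ Is T β).card : ℝ) ≤ ∑ ρ ∈ Nr T β ∪ Is T β, (mult ρ : ℝ) := card_le_NT hsubZ
      _ ≤ NT T := sum_le_sum_of_subset_of_nonneg hsubZ fun _ _ _ => Nat.cast_nonneg _
  have hw : 2 * NT T - ((Nr T β ∪ Is T β).card : ℝ) ≤ ∑ ρ ∈ Zf T, (if ρ.re = 1 / 2 then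
      (if ρ ∈ Nr T β ∪ Is T β then 2 * (mult ρ : ℝ) - 1 else 4 * (mult ρ : ℝ) - 4) else 2 * (mult ρ : ℝ)) := by
    have e2 : ((Nr T β ∪ Is T β).card : ℝ) = ∑ ρ ∈ Zf T, (if ρ ∈ Nr T β ∪ Is T β then (1:ℝ) else 0) := by
      rw [Finset.sum_ite_mem, Finset.inter_eq_right.2 hsubZ]
      simp
    rw [e2]
    unfold NT
    rw [mul_sum, ← sum_sub_distrib]
    refine sum_le_sum fun ρ hρ => ?_
    by_cases h1 : ρ ∈ Nr T β ∪ Is T β
    · rw [if_pos h1, if_pos (hCr ρ (sQ h1)).2, if_pos h1]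
    · rw [if_neg h1, sub_zero]
      by_cases h2 : ρ.re = 1 / 2
      · rw [if_pos h2, if_neg h1]
        have h3 : 1 ≤ mult ρ := one_le_mult hρ
        have h4 : mult ρ ≠ 1 := by
          intro h5
          apply h1
          rw [mem_union]
          by_cases h6 : ∃ σ ∈ Cr T, σ ≠ ρ ∧ |lev T ρ - lev T σ| ≤ β
          · left
            unfold Nr
            rw [Finset.mem_filter]
            exact ⟨hCr' ρ hρ h2, h6⟩
          · right
            unfold Is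
            rw [Finset.mem_filter]
            exact ⟨hCr' ρ hρ h2, h5, h6⟩
        have h5 : (2:ℝ) ≤ mult ρ := by exact_mod_cast (by omega : 2 ≤ mult ρ)
        linarith
      · rw [if_neg h2]
  rw [hcard] at hw
  exact close6 hWN hg1 hg0 (K := SN T * ∫ u, hh p u * ff T u) (d := d) (S := SN T) (by linarith)

end Pool.Agent.Helper49.RT
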