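import Pool.Agent.Helper49.RT.Near2
import Pool.Agent.Helper49.RT.Comb

/-!
# RT project: the coupling of the two classes, general correlation and multiplicities

`s` = square roots of the multiplicities (`1` on the isolated class).
-/

set_option autoImplicit false

open Finset

namespace Pool.Agent.Helper49.RT

open Pool.Agent.Helper6.RT (row eta clip)

theorem combine2 (W I : Finset ℝ) (hWI : Disjoint W I) {f s : ℝ → ℝ} {β g S R d : ℝ} (hg0 : 0 < g) (hg1 : g ≤ 1)
    (hev : ∀ x, f (-x) = f x) (hf : ∀ u, |u| ≤ β → g ≤ f u) (hs1 : ∀ u, 1 ≤ s u) (hsI : ∀ u ∈ I, s u = 1)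
    (hW : ∀ u ∈ W, ∃ v ∈ W, v ≠ u ∧ |u - v| ≤ β)
    (hS : 0 ≤ S) (hR : 0 < R) (hd0 : 0 ≤ d) (hI : ∀ u ∈ I, 0 ≤ u ∧ u ≤ S)
    (hd : ∀ u v, 0 ≤ u → u ≤ R → 0 ≤ v → v ≤ R → d ≤ eta (f u) + eta (f v) + eta (f (u + v))) :
    ∃ c : ℝ → ℝ → ℝ, (∀ u v, c u v = c v u) ∧ (∀ u, c u u = 0) ∧ (∀ u ∈ W ∪ I, ∑ v ∈ W ∪ I, |c u v| ≤ 1) ∧
      g ^ 2 * W.card + d * (I.card - 2 - 2 * S / R) ≤
        ∑ u ∈ W ∪ I, ∑ v ∈ W ∪ I, (2 * (s u * s v) * f (u - v) * c u v - c u v ^ 2) := by
  obtain ⟨a, ha⟩ := near2 hg0 hg1 W hW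
  obtain ⟨e, e1, e2, e3, e4, e5⟩ := row I hS hR hd0 hI hev hd
  have aW : ∀ u v, (u ∉ W ∨ v ∉ W) → a u v = 0 := by
    intro u v h
    by_contra h'
    have := ha.supp u v h'
    tauto
  have eI : ∀ u v, (u ∉ I ∨ v ∉ I) → e u v = 0 := by
    intro u v h
    by_contra h'
    have := e3 u v h'
    tauto
  have hWn : ∀ u ∈ W, u ∉ I := fun u h h' => disjoint_left.1 hWI h h'
  have hIn : ∀ u ∈ I, u ∉ W := fun u h h' => disjoint_left.1 hWI h' h
  refine ⟨fun u v => a u v + e u v, fun u v => ?_, fun u => ?_, fun u hu => ?_, ?_⟩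
  · show a u v + e u v = a v u + e v u
    rw [ha.sym, e1]
  · show a u u + e u u = 0
    rw [ha.diag, e2, add_zero]
  · show ∑ v ∈ W ∪ I, |a u v + e u v| ≤ 1
    rw [sum_union hWI]
    rcases mem_union.1 hu with h | h
    · have h1 : ∑ v ∈ W, |a u v + e u v| = ∑ v ∈ W, a u v := by
        refine sum_congr rfl fun v _ => ?_
        rw [eI u v (Or.inl (hWn u h)), add_zero, abs_of_nonneg (ha.nn u v)]
      have h2 : ∑ v ∈ I, |a u v + e u v| = 0 := by
        refine sum_eq_zero fun v hv => ?_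
        rw [eI u v (Or.inl (hWn u h)), aW u v (Or.inr (hIn v hv))]
        simp
      rw [h1, h2, add_zero]
      exact ha.row u h
    · have h1 : ∑ v ∈ W, |a u v + e u v| = 0 := by
        refine sum_eq_zero fun v hv => ?_
        rw [eI u v (Or.inr (hWn v hv)), aW u v (Or.inl (hIn u h))]
        simp
      have h2 : ∑ v ∈ I, |a u v + e u v| = ∑ v ∈ I, |e u v| := by
        refine sum_congr rfl fun v _ => ?_
        rw [aW u v (Or.inl (hIn u h)), zero_add]
      rw [h1, h2, zero_add]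
      exact e4 u h
  · show g ^ 2 * W.card + d * (I.card - 2 - 2 * S / R) ≤
        ∑ u ∈ W ∪ I, ∑ v ∈ W ∪ I, (2 * (s u * s v) * f (u - v) * (a u v + e u v) - (a u v + e u v) ^ 2)
    have h1 : ∑ u ∈ W, ∑ v ∈ W ∪ I, (2 * (s u * s v) * f (u - v) * (a u v + e u v) - (a u v + e u v) ^ 2) =
        ∑ u ∈ W, ∑ v ∈ W, (2 * (s u * s v) * f (u - v) * a u v - a u v ^ 2) := by
      refine sum_congr rfl fun u hu => ?_
      rw [sum_union hWI]
      have h2 : ∑ v ∈ I, (2 * (s u * s v) * f (u - v) * (a u v + e u v) - (a u v + e u v) ^ 2) = 0 := by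
        refine sum_eq_zero fun v hv => ?_
        rw [eI u v (Or.inl (hWn u hu)), aW u v (Or.inr (hIn v hv))]
        ring
      rw [h2, add_zero]
      refine sum_congr rfl fun v _ => ?_
      rw [eI u v (Or.inl (hWn u hu)), add_zero]
    have h2 : ∑ u ∈ I, ∑ v ∈ W ∪ I, (2 * (s u * s v) * f (u - v) * (a u v + e u v) - (a u v + e u v) ^ 2) =
        ∑ u ∈ I, ∑ v ∈ I, (2 * f (u - v) * e u v - e u v ^ 2) := by
      refine sum_congr rfl fun u hu => ?_
      rw [sum_union hWI]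
      have h3 : ∑ v ∈ W, (2 * (s u * s v) * f (u - v) * (a u v + e u v) - (a u v + e u v) ^ 2) = 0 := by
        refine sum_eq_zero fun v hv => ?_
        rw [eI u v (Or.inr (hWn v hv)), aW u v (Or.inl (hIn u hu))]
        ring
      rw [h3, zero_add]
      refine sum_congr rfl fun v hv => ?_
      rw [aW u v (Or.inl (hIn u hu)), zero_add, hsI u hu, hsI v hv]
      ring
    rw [sum_union hWI, h1, h2]
    have h3 : g ^ 2 * W.card ≤ ∑ u ∈ W, ∑ v ∈ W, (2 * (s u * s v) * f (u - v) * a u v - a u v ^ 2) := by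
      refine ha.gain.trans ?_
      refine sum_le_sum fun u _ => ?_
      refine sum_le_sum fun v _ => ?_
      by_cases h5 : a u v = 0
      · rw [h5]; simp
      · have h6 := hf (u - v) (ha.supp u v h5).2.2
        have h7 := ha.nn u v
        have h8 : 1 ≤ s u * s v := by
          have := hs1 u
          have := hs1 v
          nlinarith
        have h9 : g ≤ (s u * s v) * f (u - v) := by nlinarith
        have h10 := mul_le_mul_of_nonneg_right h9 h7
        linarith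
    linarith

end Pool.Agent.Helper49.RT
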