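import Pool.Agent.Helper49.RT.Fin3

/-!
# RT project: box version, uniform in `β`
-/

set_option autoImplicit false

open Finset Filter Topology MeasureTheory

namespace Pool.Agent.Helper49.RT

open Pool.Agent.Helper57.LH Pool.Agent.Helper57.PC Pool.Agent.Helper57.Zeta
open Pool.Agent.Helper57.FL (ff)
open Pool.Agent.Helper6.HM (lev one_le_mult Sc mem_Sc lev_inj)
open Pool.Agent.Helper99.HZ (hh)
open Pool.Agent.Helper66.RT (Wt Gp Gp_even Gp_near Gam CMT CMT_le exists_weight trace_up gain)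

lemma arith5 {x d S a N e E B : ℝ} (hx : 13 / 20 ≤ x) (hd0 : 0 < d) (he : e = d / 200) (hS : 20 ≤ S)
    (hd1 : d ≤ 1 / 10) (hB0 : 0 ≤ B) (hB : B ≤ 1 / 400)
    (hN1 : (1 - e) * S ≤ N) (hE : E ≤ e * S)
    (h : 2 * N - a * (1 - d - (62 / 5 * B + 2 * e)) - (62 / 5 * B + 2 * e) * N - d * (2 + 2 * S / 10) ≤ S * (2 - x + 2 * e)) :
    (x + d / 10 - 5 * B) * S ≤ a - E := by
  subst he
  by_contra hlt
  push Not at hlt
  set t : ℝ := 62 / 5 * B + 2 * (d / 200) with ht
  have ht0 : 0 ≤ t := by positivity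
  have ht1 : t ≤ 1 / 25 := by rw [ht]; linarith
  have h1 : 0 < 1 - d - t := by linarith
  have h2 : (1 - d - t) * a < (1 - d - t) * ((x + d / 10 - 5 * B + d / 200) * S) :=
    mul_lt_mul_of_pos_left (by linarith) h1
  have h3 : (2 - t) * ((1 - d / 200) * S) ≤ (2 - t) * N := mul_le_mul_of_nonneg_left hN1 (by linarith)
  have h4 : d * 20 ≤ d * S := mul_le_mul_of_nonneg_left hS hd0.le
  have h5 : (1 - d - t) * ((x + d / 10 - 5 * B + d / 200) * S) ≤ (x - t - 3 / 10 * d - 4 * (d / 200)) * S := by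
    have h6 : (1 - d - t) * (x + d / 10 - 5 * B + d / 200) ≤ x - t - 3 / 10 * d - 4 * (d / 200) := by
      have k1 : 1 - (x + d / 10 - 5 * B + d / 200) ≤ 29 / 80 := by linarith
      have k2 : t * (1 - (x + d / 10 - 5 * B + d / 200)) ≤ t * (29 / 80) := mul_le_mul_of_nonneg_left k1 ht0
      have k3 : d * (1 - (x + d / 10 - 5 * B + d / 200)) ≤ d * (29 / 80) := mul_le_mul_of_nonneg_left k1 hd0.le
      have k4 : (1 - d - t) * (x + d / 10 - 5 * B + d / 200) = (x + d / 10 - 5 * B + d / 200) - d - t +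
          d * (1 - (x + d / 10 - 5 * B + d / 200)) + t * (1 - (x + d / 10 - 5 * B + d / 200)) := by ring
      rw [k4]
      have k5 : t * (29 / 80) = 62 / 5 * B * (29 / 80) + 2 * (d / 200) * (29 / 80) := by rw [ht]; ring
      linarith
    calc (1 - d - t) * ((x + d / 10 - 5 * B + d / 200) * S) = ((1 - d - t) * (x + d / 10 - 5 * B + d / 200)) * S := by ring
      _ ≤ _ := mul_le_mul_of_nonneg_right h6 (by linarith)
  have h7 : 0 ≤ t * (d / 200) * S := by positivity
  nlinarith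

/-- **the limit, uniform in `β`** -/
theorem final5 (hG : ∀ u : ℝ, 1 - 31 / 20 * u ^ 2 ≤ Gam u) : ∃ κ T₀ : ℝ, 2 - CMT < κ ∧ ∀ T : ℝ, T₀ ≤ T →
    ∀ β : ℝ, 0 ≤ β → β ≤ 1 / 20 → (κ - 5 * β ^ 2) * SN T ≤ ((Is3 T β).card : ℝ) := by
  obtain ⟨d₀, hd₀, hd₀'⟩ := gain (R := 10) (by norm_num)
  obtain ⟨d, hd⟩ : ∃ d, d = min (d₀ / 2) (1 / 10) := ⟨_, rfl⟩
  have hd0 : 0 < d := by rw [hd]; positivity
  have hd1 : d ≤ 1 / 10 := by rw [hd]; exact min_le_right _ _
  have hdd : d ≤ d₀ / 2 := by rw [hd]; exact min_le_left _ _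
  obtain ⟨e, he⟩ : ∃ e, e = d / 200 := ⟨_, rfl⟩
  have he0 : 0 < e := by rw [he]; positivity
  have he1 : e ≤ 1 := by rw [he]; linarith
  obtain ⟨p, b, hp, hen, hcl⟩ := exists_weight he0
  obtain ⟨T₁, hT₁⟩ := NT_lower e he0
  obtain ⟨T₃, hT₃⟩ := Filter.eventually_atTop.1 (trace_up hp he0)
  obtain ⟨T₄, hT₄⟩ := Filter.eventually_atTop.1 (edge he0)
  refine ⟨2 - CMT + d / 10, max T₁ (max T₃ (max T₄ 200)), by linarith, fun T hT β hβ0 hβ1 => ?_⟩
  have g1 : T₁ ≤ T := (le_max_left _ _).trans hT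
  have g3 : T₃ ≤ T := ((le_max_left _ _).trans (le_max_right _ _)).trans hT
  have g4 : T₄ ≤ T := ((le_max_left _ _).trans ((le_max_right _ _).trans (le_max_right _ _))).trans hT
  have g5 : 200 ≤ T := ((le_max_right _ _).trans ((le_max_right _ _).trans (le_max_right _ _))).trans hT
  have hT1 : 1 < T := by linarith
  have hpi := Real.pi_pos
  have hpi4 := Real.pi_lt_four
  have hlog : 1 ≤ Real.log T := by
    rw [Real.le_log_iff_exp_le (by linarith)]
    have := Real.exp_one_lt_d9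
    linarith
  have hSd : SN T = T * Real.log T / (2 * Real.pi) := rfl
  have hS : 20 ≤ SN T := by
    rw [hSd, le_div_iff₀ (by positivity)]
    nlinarith
  have hB1 : β ^ 2 ≤ 1 / 400 := by nlinarith
  have hc := count3 (T := T) (β := β) (τ := 62 / 5 * β ^ 2 + 2 * e) (d := d) hT1 hp (by linarith) hβ0 (by positivity) (by
      intro u hu
      have h1 : u ^ 2 ≤ (2 * β) ^ 2 := by
        rw [← sq_abs]
        exact pow_le_pow_left₀ (abs_nonneg _) hu 2
      have h2 := (abs_le.1 (hcl u)).1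
      have h3 := hG u
      nlinarith) hd0.le (by rw [he]; linarith)
    (fun u v h1 h2 h3 h4 => by
      have q := hd₀' u v h1 h2 h3 h4
      have q1 := eta_lip (Gam u) (Gp p u)
      have q2 := eta_lip (Gam v) (Gp p v)
      have q3 := eta_lip (Gam (u + v)) (Gp p (u + v))
      have r1 := hcl u
      have r2 := hcl v
      have r3 := hcl (u + v)
      have s : ∀ g, Pool.Agent.Helper66.RT.eta g = Pool.Agent.Helper6.RT.eta g := fun g => rfl
      rw [s, s, s] at q
      linarith)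
  have h1 := hT₁ T g1
  have h3 := hT₃ T g3
  have h4 := hT₄ T g4
  have hx : 13 / 20 ≤ 2 - CMT := by
    have := CMT_le
    linarith
  have h5 : SN T * ∫ u, hh p u * ff T u ≤ SN T * (CMT + e + e) :=
    mul_le_mul_of_nonneg_left (h3.trans (by linarith)) (by linarith)
  have h6 : ((Iso T β).card : ℝ) - (Ed T).card ≤ ((Iso T β \ Ed T).card : ℝ) := by
    have := le_card_sdiff (Ed T) (Iso T β)
    have h7 : (Iso T β).card ≤ (Iso T β \ Ed T).card + (Ed T).card := by omega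
    have h8 : ((Iso T β).card : ℝ) ≤ ((Iso T β \ Ed T).card : ℝ) + (Ed T).card := by exact_mod_cast h7
    linarith
  have h7 : ((Iso T β \ Ed T).card : ℝ) ≤ ((Is3 T β).card : ℝ) := by
    exact_mod_cast card_le_card (sub_Is3 hlog hβ1)
  refine (arith5 (e := e) (N := NT T) (B := β ^ 2) hx hd0 he hS hd1 (sq_nonneg β) hB1 h1 h4 ?_).trans (h6.trans h7)
  have e2 : SN T * (2 - (2 - CMT) + 2 * e) = SN T * (CMT + e + e) := by ring
  rw [e2]
  exact hc.trans h5

end Pool.Agent.Helper49.RT
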