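import Pool.Agent.Helper49.RT.Cnt
import Pool.Agent.Helper66.RT.Half

/-!
# RT project: the isolation function

With `Γ = Gam` and `C = CMT`: at least `(1 - (C - 1)/Γ(β)² + δ) T log T/2π` zeros up to `T` are simple, on the line and without
another zero of the line within `β` mean spacings, for all `0 ≤ β ≤ 1/2`; for `β ≤ 1/20` also without any zero of zeta in the box
of height `5/log T`.
-/

set_option autoImplicit false

open Finset Filter Topology MeasureTheory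

namespace Pool.Agent.Helper49.RT

open Pool.Agent.Helper57.LH Pool.Agent.Helper57.PC Pool.Agent.Helper57.Zeta
open Pool.Agent.Helper57.FL (ff)
open Pool.Agent.Helper6.HM (lev one_le_mult Sc mem_Sc lev_inj)
open Pool.Agent.Helper99.HZ (hh)
open Pool.Agent.Helper66.RT (Wt Gp Gp_even Gp_near Gam CMT CMT_ge3 CMT_le3 exists_weight trace_up gain Cr Nr Is Gam_half Gam_anti
  Gam_pos_half Gam_abs Gam_even)

lemma arith6 {C γ g d S a N e E : ℝ} (hC : C ≤ 133 / 100) (hγ : 42 / 100 ≤ γ ^ 2) (hγ0 : 0 < γ) (hγ1 : γ ≤ 1)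
    (hg : g = γ - e) (hge : 0 ≤ g) (hd0 : 0 < d) (hd1 : d ≤ 1 / 10) (he : e = d / 1000) (hS : 40 ≤ S) (ha : 0 ≤ a)
    (hN1 : (1 - e) * S ≤ N) (hE : E ≤ e * S)
    (h : (1 + g ^ 2) * N - a * (g ^ 2 - d) - d * (2 + 2 * S / 20) ≤ S * (C + e + e)) :
    (1 - (C - 1) / γ ^ 2 + d / 20) * S ≤ a - E := by
  have he0 : 0 < e := by rw [he]; positivity
  have hγ2 : γ ^ 2 ≤ 1 := by nlinarith
  obtain ⟨y, hy⟩ : ∃ y, y = 1 - (C - 1) / γ ^ 2 := ⟨_, rfl⟩
  have hy1 : γ ^ 2 * y = γ ^ 2 - (C - 1) := by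
    rw [hy]
    field_simp
  have hy2 : 214 / 1000 ≤ y := by
    by_contra hlt
    push Not at hlt
    have h1 : γ ^ 2 * y < γ ^ 2 * (214 / 1000) := mul_lt_mul_of_pos_left hlt (by linarith)
    linarith
  rw [← hy]
  by_contra hlt
  push Not at hlt
  have g1 : γ ^ 2 - 2 * e ≤ g ^ 2 := by
    have k1 : g ^ 2 = γ ^ 2 - 2 * (γ * e) + e ^ 2 := by rw [hg]; ring
    have k2 : γ * e ≤ 1 * e := mul_le_mul_of_nonneg_right hγ1 he0.le
    have k3 := sq_nonneg e
    linarith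
  have g2 : g ^ 2 ≤ γ ^ 2 := pow_le_pow_left₀ hge (by rw [hg]; linarith) 2
  have h1 : 0 < γ ^ 2 - d := by linarith
  have h2 : (γ ^ 2 - d) * a < (γ ^ 2 - d) * ((y + d / 20 + e) * S) := mul_lt_mul_of_pos_left (by linarith) h1
  have h3 : (γ ^ 2 - d) * (y + d / 20 + e) ≤ γ ^ 2 * y - 6 * e - 15 / 100 * d := by
    have k1 : (γ ^ 2 - d) * (d / 20 + e) ≤ 1 * (d / 20 + e) :=
      mul_le_mul_of_nonneg_right (by linarith) (by positivity)
    have k2 : d * (214 / 1000) ≤ d * y := mul_le_mul_of_nonneg_left hy2 hd0.le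
    have k3 : (γ ^ 2 - d) * (y + d / 20 + e) = γ ^ 2 * y - d * y + (γ ^ 2 - d) * (d / 20 + e) := by ring
    rw [k3]
    linarith
  have h4 : (γ ^ 2 - d) * ((y + d / 20 + e) * S) ≤ (γ ^ 2 * y - 6 * e - 15 / 100 * d) * S := by
    calc (γ ^ 2 - d) * ((y + d / 20 + e) * S) = ((γ ^ 2 - d) * (y + d / 20 + e)) * S := by ring
      _ ≤ _ := mul_le_mul_of_nonneg_right h3 (by linarith)
  have h5 : a * g ^ 2 ≤ a * γ ^ 2 := mul_le_mul_of_nonneg_left g2 ha
  have h6 : (1 + g ^ 2) * ((1 - e) * S) ≤ (1 + g ^ 2) * N := mul_le_mul_of_nonneg_left hN1 (by positivity)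
  have h7 : (1 + γ ^ 2 - 4 * e) * S ≤ (1 + g ^ 2) * ((1 - e) * S) := by
    rw [← mul_assoc]
    refine mul_le_mul_of_nonneg_right ?_ (by linarith)
    have k1 : e * g ^ 2 ≤ e * 1 := mul_le_mul_of_nonneg_left (g2.trans hγ2) he0.le
    have k2 : (1 + g ^ 2) * (1 - e) = 1 + g ^ 2 - e - e * g ^ 2 := by ring
    rw [k2]
    linarith
  have h8 : d * 40 ≤ d * S := mul_le_mul_of_nonneg_left hS hd0.le
  rw [hy1] at h4
  have e1 : (γ ^ 2 - (C - 1) - 6 * e - 15 / 100 * d) * S = γ ^ 2 * S - C * S + S - 6 * (e * S) - 15 / 100 * (d * S) := by ring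
  have e2 : (1 + γ ^ 2 - 4 * e) * S = S + γ ^ 2 * S - 4 * (e * S) := by ring
  have e3 : a * (g ^ 2 - d) = a * g ^ 2 - a * d := by ring
  have e4 : (γ ^ 2 - d) * a = a * γ ^ 2 - a * d := by ring
  have e5 : S * (C + e + e) = C * S + 2 * (e * S) := by ring
  have e6 : d * (2 + 2 * S / 20) = 2 * d + (d * S) / 10 := by ring
  rw [e1] at h4
  rw [e2] at h7
  rw [e3, e5, e6] at h
  rw [e4] at h2
  linarith

/-- simple critical zeros `ρ` up to `T` such that every other zero `σ` of zeta with `|Re σ - 1/2| ≤ h/log T` has normalised distance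
of ordinates `> b` from `ρ` -/
def IsoSet (T b h : ℝ) : Set ℂ := {ρ | ρ ∈ Zf T ∧ ρ.re = 1 / 2 ∧ mult ρ = 1 ∧
  ∀ σ : ℂ, IsNontrivialZero σ → σ ≠ ρ → |σ.re - 1 / 2| * Real.log T ≤ h → b < |lev T ρ - lev T σ|}

lemma IsoSet_sub (T b h : ℝ) : IsoSet T b h ⊆ (Zf T : Set ℂ) := fun _ hρ => hρ.1

lemma in_range {T β : ℝ} (hlog : 2 ≤ Real.log T) (hβ : β ≤ 1 / 2) {ρ σ : ℂ} (h8 : 1 < ρ.im ∧ ρ.im ≤ T - 1)
    (hσ : IsNontrivialZero σ) (hle : |lev T ρ - lev T σ| ≤ β) (hlog4 : 4 ≤ Real.log T) : σ ∈ Zf T := by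
  have hpi := Real.pi_pos
  have hpi4 := Real.pi_lt_four
  have h9 : |ρ.im - σ.im| ≤ 1 := by
    have e1 : lev T ρ - lev T σ = (ρ.im - σ.im) * (Real.log T / (2 * Real.pi)) := by
      unfold lev
      ring
    rw [e1, abs_mul, abs_of_pos (by positivity : 0 < Real.log T / (2 * Real.pi))] at hle
    have h10 : |ρ.im - σ.im| * (4 / (2 * Real.pi)) ≤ 1 / 2 := by
      refine le_trans ?_ (hle.trans hβ)
      exact mul_le_mul_of_nonneg_left (div_le_div_of_nonneg_right hlog4 (by positivity)) (abs_nonneg _)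
    rw [mul_div_assoc', div_le_iff₀ (by positivity)] at h10
    linarith
  have h10 := abs_le.1 h9
  rw [mem_Zf]
  exact ⟨hσ, by linarith, by linarith⟩

/-- **the isolation function** -/
theorem final6 : ∃ δ T₀ : ℝ, 0 < δ ∧ ∀ T : ℝ, T₀ ≤ T →
    (∀ β : ℝ, 0 ≤ β → β ≤ 1 / 2 → (1 - (CMT - 1) / Gam β ^ 2 + δ) * SN T ≤ ((IsoSet T β 0).ncard : ℝ)) ∧
    (∀ β : ℝ, 0 ≤ β → β ≤ 1 / 20 → (1 - (CMT - 1) / Gam β ^ 2 + δ) * SN T ≤ ((IsoSet T β 5).ncard : ℝ)) := by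
  classical
  obtain ⟨d₀, hd₀, hd₀'⟩ := gain (R := 20) (by norm_num)
  obtain ⟨d, hd⟩ : ∃ d, d = min (d₀ / 2) (1 / 10) := ⟨_, rfl⟩
  have hd0 : 0 < d := by rw [hd]; positivity
  have hd1 : d ≤ 1 / 10 := by rw [hd]; exact min_le_right _ _
  have hdd : d ≤ d₀ / 2 := by rw [hd]; exact min_le_left _ _
  obtain ⟨e, he⟩ : ∃ e, e = d / 1000 := ⟨_, rfl⟩
  have he0 : 0 < e := by rw [he]; positivity
  obtain ⟨p, b, hp, hen, hcl⟩ := exists_weight he0
  obtain ⟨T₁, hT₁⟩ := NT_lower e he0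
  obtain ⟨T₃, hT₃⟩ := Filter.eventually_atTop.1 (trace_up hp he0)
  obtain ⟨T₄, hT₄⟩ := Filter.eventually_atTop.1 (edge he0)
  refine ⟨d / 20, max T₁ (max T₃ (max T₄ (max (Real.exp 4) 80))), by positivity, fun T hT => ?_⟩
  have g1 : T₁ ≤ T := (le_max_left _ _).trans hT
  have g3 : T₃ ≤ T := ((le_max_left _ _).trans (le_max_right _ _)).trans hT
  have g4 : T₄ ≤ T := ((le_max_left _ _).trans ((le_max_right _ _).trans (le_max_right _ _))).trans hT
  have g5' : max (Real.exp 4) 80 ≤ T := ((le_max_right _ _).trans ((le_max_right _ _).trans (le_max_right _ _))).trans hT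
  have g5 : Real.exp 4 ≤ T := (le_max_left _ _).trans g5'
  have hT0 : 0 < T := lt_of_lt_of_le (Real.exp_pos 4) g5
  have hlog : 4 ≤ Real.log T := by rwa [Real.le_log_iff_exp_le hT0]
  have hTbig : 80 ≤ T := (le_max_right _ _).trans g5'
  have hT1 : 1 < T := by linarith
  have hpi := Real.pi_pos
  have hpi4 := Real.pi_lt_four
  have hSd : SN T = T * Real.log T / (2 * Real.pi) := rfl
  have hS : 40 ≤ SN T := by
    rw [hSd, le_div_iff₀ (by positivity)]
    nlinarith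
  have hgain : ∀ u v : ℝ, 0 ≤ u → u ≤ 20 → 0 ≤ v → v ≤ 20 → d ≤ Pool.Agent.Helper6.RT.eta (Gp p u) +
      Pool.Agent.Helper6.RT.eta (Gp p v) + Pool.Agent.Helper6.RT.eta (Gp p (u + v)) := by
    intro u v h1 h2 h3 h4
    have q := hd₀' u v h1 h2 h3 h4
    have q1 := eta_lip (Gam u) (Gp p u)
    have q2 := eta_lip (Gam v) (Gp p v)
    have q3 := eta_lip (Gam (u + v)) (Gp p (u + v))
    have r1 := hcl u
    have r2 := hcl v
    have r3 := hcl (u + v)
    have s : ∀ g, Pool.Agent.Helper66.RT.eta g = Pool.Agent.Helper6.RT.eta g := fun g => rfl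
    rw [s, s, s] at q
    linarith
  have h1 := hT₁ T g1
  have h3 := hT₃ T g3
  have h4 := hT₄ T g4
  have h5 : SN T * ∫ u, hh p u * ff T u ≤ SN T * (CMT + e + e) :=
    mul_le_mul_of_nonneg_left (h3.trans (by linarith)) (by linarith)
  -- the correlation
  have hγ : ∀ β : ℝ, 0 ≤ β → β ≤ 1 / 2 → 653 / 1000 ≤ Gam β ∧ Gam β ≤ 1 ∧ 42 / 100 ≤ Gam β ^ 2 ∧
      ∀ u, |u| ≤ β → Gam β - e ≤ Gp p u := by
    intro β hβ0 hβ1
    have k1 := Gam_pos_half (u := β) (by rw [abs_of_nonneg hβ0]; exact hβ1)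
    refine ⟨k1, (le_abs_self _).trans (Gam_abs β), by nlinarith, fun u hu => ?_⟩
    have k2 : Gam β ≤ Gam |u| := Gam_anti (abs_nonneg u) hu hβ1
    have k3 : Gam |u| = Gam u := by
      rcases abs_choice u with h | h
      · rw [h]
      · rw [h, Gam_even]
    have k4 := (abs_le.1 (hcl u)).1
    linarith
  have hcard : ∀ X : Finset ℂ, ∀ Y : Set ℂ, Y ⊆ (Zf T : Set ℂ) → (∀ ρ ∈ X, ρ ∉ Ed T → ρ ∈ Y) →
      (X.card : ℝ) - (Ed T).card ≤ (Y.ncard : ℝ) := by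
    intro X Y hY hXY
    have k1 := le_card_sdiff (Ed T) X
    have k2 : (X \ Ed T).card ≤ Y.ncard := by
      rw [← Set.ncard_coe_finset]
      refine Set.ncard_le_ncard ?_ ((Zf T).finite_toSet.subset hY)
      intro ρ hρ
      rw [Finset.mem_coe, Finset.mem_sdiff] at hρ
      exact hXY ρ hρ.1 hρ.2
    have k3 : X.card ≤ Y.ncard + (Ed T).card := by omega
    have k4 : (X.card : ℝ) ≤ (Y.ncard : ℝ) + (Ed T).card := by exact_mod_cast k3
    linarith
  have hEd : ∀ ρ ∈ Zf T, ρ ∉ Ed T → 1 < ρ.im ∧ ρ.im ≤ T - 1 := by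
    intro ρ hρ h2
    by_contra h
    apply h2
    unfold Ed
    rw [mem_filter]
    exact ⟨hρ, h⟩
  refine ⟨fun β hβ0 hβ1 => ?_, fun β hβ0 hβ1 => ?_⟩
  · obtain ⟨a1, a2, a3, a4⟩ := hγ β hβ0 hβ1
    have hc := count7 (T := T) (β := β) (g := Gam β - e) (d := d) hT1 hp (by rw [he]; linarith) (by linarith) a4 hd0.le hgain
    refine (arith6 (C := CMT) (γ := Gam β) (g := Gam β - e) (d := d) (e := e) (N := NT T) (E := (Ed T).card) CMT_le3 a3 (by linarith) a2 rfl (by rw [he]; linarith) hd0 hd1 he hS (Nat.cast_nonneg _) h1 h4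
      (hc.trans h5)).trans ?_
    refine hcard _ _ (IsoSet_sub T β 0) ?_
    intro ρ hρ hρE
    unfold Is Cr at hρ
    rw [mem_filter, mem_filter] at hρ
    obtain ⟨⟨h6, h7⟩, h8, h9⟩ := hρ
    refine ⟨h6, h7, h8, fun σ hσ hne hre => ?_⟩
    by_contra hle
    push Not at hle
    have h10 := in_range (by linarith) hβ1 (hEd ρ h6 hρE) hσ hle hlog
    apply h9
    have h11 : σ.re = 1 / 2 := by
      have h12 : |σ.re - 1 / 2| ≤ 0 := by
        by_contra h13
        push Not at h13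
        have : 0 < |σ.re - 1 / 2| * Real.log T := by positivity
        linarith
      have h13 := abs_nonpos_iff.1 h12
      linarith
    refine ⟨σ, ?_, hne, hle⟩
    rw [mem_filter]
    exact ⟨h10, h11⟩
  · obtain ⟨a1, a2, a3, a4⟩ := hγ β hβ0 (by linarith)
    have hc := count6 (T := T) (β := β) (g := Gam β - e) (d := d) hT1 hp (by linarith) (by rw [he]; linarith) (by linarith) a4
      hd0.le (by
        have : e ≤ 1 / 10000 := by rw [he]; linarith
        nlinarith) hgain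
    refine (arith6 (C := CMT) (γ := Gam β) (g := Gam β - e) (d := d) (e := e) (N := NT T) (E := (Ed T).card) CMT_le3 a3 (by linarith) a2 rfl (by rw [he]; linarith) hd0 hd1 he hS (Nat.cast_nonneg _) h1 h4
      (hc.trans h5)).trans ?_
    refine hcard _ _ (IsoSet_sub T β 5) ?_
    intro ρ hρ hρE
    unfold Iso at hρ
    rw [mem_filter, mem_Sc] at hρ
    obtain ⟨⟨h6, h7, h8⟩, h9, h9'⟩ := hρ
    refine ⟨h6, h7, h8, fun σ hσ hne hre => ?_⟩
    by_contra hle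
    push Not at hle
    have h10 := in_range (by linarith) (by linarith) (hEd ρ h6 hρE) hσ hle hlog
    by_cases h12 : σ ∈ Sc T
    · exact h9' σ h12 ⟨hne, hle⟩
    · exact h9 ⟨σ, h10, h12, hle, hre⟩

end Pool.Agent.Helper49.RT
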