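import Pool.Agent.Helper6.HM.Frame

/-!
# RT project: finite form of the main inequality with coupled off-line pairs

The test matrix has entries `dd i` on the diagonal, `ee i` between `i` and its mirror image, and an admissible part `c`.
`Q` is a set of coupled indices on the line, `B` a set of simple indices on the line with a private off-line partner `pi i`.
-/

set_option autoImplicit false

open Matrix Finset
open scoped ComplexOrder ComplexConjugate

namespace Pool.Agent.Helper49.RT

open Pool.Agent.Helper6.HM (Data diagdom_psd exists_root trace_lower)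

variable {ι : Type*} [Fintype ι] [DecidableEq ι]

section test

variable (D : Data ι) (d e : ι → ℝ)

/-- the test matrix -/
noncomputable def T (c : ι → ι → ℂ) : Matrix ι ι ℂ :=
  Matrix.of fun i j => (if j = i then (d i : ℂ) else 0) + (if j = D.st i then (e i : ℂ) else 0) + c i j

/-- admissible test data -/
structure Adm (c : ι → ι → ℂ) : Prop where
  herm : ∀ i j, c j i = conj (c i j)
  supp : ∀ i j, c i j ≠ 0 → i ≠ j ∧ j ≠ D.st i
  e0 : ∀ i, 0 ≤ e i
  est : ∀ i, e (D.st i) = e i
  e1 : ∀ i, D.st i = i → e i = 0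
  row1 : ∀ i, e i + ∑ j, ‖c i j‖ ≤ d i
  row2 : ∀ i, e i + ∑ j, ‖c i j‖ ≤ 2 - d i

variable {D d e} {c : ι → ι → ℂ}

lemma T_apply (i j : ι) : T D d e c i j =
    (if j = i then (d i : ℂ) else 0) + (if j = D.st i then (e i : ℂ) else 0) + c i j := rfl

lemma Adm.diag (h : Adm D d e c) (i : ι) : c i i = 0 := by
  by_contra h0
  exact (h.supp i i h0).1 rfl

lemma Adm.mirror (h : Adm D d e c) (i : ι) : c i (D.st i) = 0 := by
  by_contra h0
  exact (h.supp i _ h0).2 rfl

lemma T_herm (h : Adm D d e c) : (T D d e c).IsHermitian := by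
  ext i j
  rw [conjTranspose_apply, T_apply, T_apply, star_add, star_add]
  congr 1
  · congr 1
    · by_cases hij : i = j
      · subst hij; simp
      · simp [hij, Ne.symm hij]
    · by_cases h1 : i = D.st j
      · have h3 : D.st i = j := by rw [h1, D.hst]
        rw [if_pos h1, if_pos h3.symm, h1, h.est]
        simp
      · have h5 : ¬ (j = D.st i) := by
          intro h1'
          exact h1 (by rw [h1', D.hst])
        rw [if_neg h1, if_neg h5]
        simp
  · rw [h.herm i j]
    simp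

/-- off-diagonal row sums -/
lemma T_row (h : Adm D d e c) (i : ι) : ∑ j ∈ univ.erase i, ‖T D d e c i j‖ ≤ e i + ∑ j, ‖c i j‖ := by
  have h1 : ∀ j ∈ univ.erase i, ‖T D d e c i j‖ ≤ (if j = D.st i then e i else 0) + ‖c i j‖ := by
    intro j hj
    rw [T_apply, if_neg (Finset.ne_of_mem_erase hj), zero_add]
    refine (norm_add_le _ _).trans ?_
    gcongr
    by_cases h2 : j = D.st i
    · rw [if_pos h2, if_pos h2, Complex.norm_real, Real.norm_eq_abs, abs_of_nonneg (h.e0 i)]
    · rw [if_neg h2, if_neg h2, norm_zero]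
  refine (sum_le_sum h1).trans ?_
  rw [sum_add_distrib]
  refine add_le_add ?_ ?_
  · have h4 : ∑ j ∈ univ.erase i, (if j = D.st i then e i else 0) ≤ ∑ j, (if j = D.st i then e i else 0) := by
      refine sum_le_sum_of_subset_of_nonneg (erase_subset _ _) fun j _ _ => ?_
      split_ifs
      · exact h.e0 i
      · exact le_rfl
    refine h4.trans (le_of_eq ?_)
    rw [Finset.sum_ite_eq' univ (D.st i)]
    simp
  · exact sum_le_sum_of_subset_of_nonneg (erase_subset _ _) fun j _ _ => norm_nonneg _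

lemma T_diag (h : Adm D d e c) (i : ι) : T D d e c i i = (d i : ℂ) := by
  rw [T_apply, h.diag, if_pos rfl, add_zero]
  by_cases h1 : i = D.st i
  · rw [if_pos h1, h.e1 i h1.symm]
    simp
  · rw [if_neg h1, add_zero]

lemma T_psd (h : Adm D d e c) : (T D d e c).PosSemidef := by
  refine diagdom_psd (T_herm h) fun i => ?_
  rw [T_diag h, Complex.ofReal_re]
  exact (T_row h i).trans (h.row1 i)

lemma T_two (h : Adm D d e c) : ((2:ℂ) • 1 - T D d e c).PosSemidef := by
  refine diagdom_psd ?_ fun i => ?_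
  · refine IsHermitian.sub ?_ (T_herm h)
    ext i j
    rw [conjTranspose_apply, Matrix.smul_apply, Matrix.smul_apply, Matrix.one_apply, Matrix.one_apply]
    by_cases hij : i = j
    · subst hij; simp
    · simp [hij, Ne.symm hij]
  · have e1 : ∑ j ∈ univ.erase i, ‖((2:ℂ) • 1 - T D d e c) i j‖ = ∑ j ∈ univ.erase i, ‖T D d e c i j‖ := by
      refine sum_congr rfl fun j hj => ?_
      rw [Matrix.sub_apply, Matrix.smul_apply, Matrix.one_apply, if_neg (Finset.ne_of_mem_erase hj).symm, smul_zero,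
        zero_sub, norm_neg]
    rw [e1, Matrix.sub_apply, Matrix.smul_apply, Matrix.one_apply_eq, T_diag h]
    have e2 : ((2:ℂ) • (1:ℂ) - (d i : ℂ)).re = 2 - d i := by simp
    rw [e2]
    exact (T_row h i).trans (h.row2 i)

lemma T_sq (h : Adm D d e c) : (T D d e c * T D d e c).trace.re =
    ∑ i, (d i ^ 2 + e i ^ 2 + ∑ j, ‖c i j‖ ^ 2) := by
  have hh := T_herm h
  rw [Matrix.trace, Complex.re_sum]
  refine sum_congr rfl fun i _ => ?_
  rw [diag_apply, Matrix.mul_apply, Complex.re_sum]
  have h1 : ∀ j, (T D d e c i j * T D d e c j i).re = (if j = i then d i ^ 2 else 0) +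
      (if j = D.st i then e i ^ 2 else 0) + ‖c i j‖ ^ 2 := by
    intro j
    have h2 : T D d e c i j * T D d e c j i = ((‖T D d e c i j‖ ^ 2 : ℝ) : ℂ) := by
      rw [← hh.apply j i, RCLike.star_def, Complex.mul_conj']
      push_cast
      ring
    rw [h2, Complex.ofReal_re]
    by_cases h3 : j = i
    · subst h3
      rw [T_diag h, h.diag, if_pos rfl, norm_zero, Complex.norm_real, Real.norm_eq_abs, sq_abs]
      by_cases h4 : j = D.st j
      · rw [if_pos h4, h.e1 j h4.symm]
        ring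
      · rw [if_neg h4]
        ring
    · rw [if_neg h3]
      by_cases h4 : j = D.st i
      · rw [if_pos h4, T_apply, if_neg h3, if_pos h4, h4, h.mirror, zero_add, add_zero, Complex.norm_real,
          Real.norm_eq_abs, sq_abs, norm_zero]
        ring
      · rw [if_neg h4, T_apply, if_neg h3, if_neg h4]
        simp
  simp only [h1, sum_add_distrib]
  rw [Finset.sum_ite_eq' univ i, Finset.sum_ite_eq' univ (D.st i)]
  simp

end test

variable (D : Data ι)

/-- the Gram matrix of the columns -/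
noncomputable def GV (i j : ι) : ℂ :=
  D.α i * D.α j * D.E i j + D.α i * D.β j * D.E i (D.st j) + D.β i * D.α j * D.E (D.st i) j +
    D.β i * D.β j * D.E (D.st i) (D.st j)

variable {D} {d e : ι → ℝ} {c : ι → ι → ℂ}

lemma GT_trace (_h : Adm D d e c) {Y : Matrix ι ι ℂ} (hY : D.E = Yᴴ * Y) :
    (((D.V Y)ᴴ * D.V Y) * T D d e c).trace.re =
    ∑ i, ((GV D i i).re * d i + (GV D (D.st i) i).re * e i) + ∑ i, ∑ j, (GV D j i * c i j).re := by
  have hG : ∀ i j, ((D.V Y)ᴴ * D.V Y) i j = GV D i j := fun i j => Data.G_apply hY i j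
  rw [Matrix.trace_mul_comm, Matrix.trace, Complex.re_sum, ← sum_add_distrib]
  refine sum_congr rfl fun i _ => ?_
  rw [diag_apply, Matrix.mul_apply]
  have e1 : ∀ j, T D d e c i j * ((D.V Y)ᴴ * D.V Y) j i = (if j = i then (d i : ℂ) * GV D j i else 0) +
      (if j = D.st i then (e i : ℂ) * GV D j i else 0) + GV D j i * c i j := by
    intro j
    rw [T_apply, hG, add_mul, add_mul, ite_mul, ite_mul, zero_mul, mul_comm (c i j)]
  simp only [e1, sum_add_distrib]
  rw [Finset.sum_ite_eq' univ i, Finset.sum_ite_eq' univ (D.st i)]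
  simp only [mem_univ, if_true, Complex.add_re, Complex.re_sum, Complex.re_ofReal_mul]
  ring

/-- the main inequality, general finite form -/
theorem main_gen (h : Adm D d e c) :
    ∑ i, (2 * ((GV D i i).re * d i + (GV D (D.st i) i).re * e i) - (d i ^ 2 + e i ^ 2) -
      4 * (D.β i ^ 2 * ((D.E i i).re + (D.E (D.st i) (D.st i)).re - 2)) +
      ∑ j, (2 * (GV D j i * c i j).re - ‖c i j‖ ^ 2)) ≤
    (∑ i, ∑ j, (D.m i : ℂ) * D.m j * (D.E (D.st i) j * D.E (D.st j) i)).re := by
  obtain ⟨Y, hY⟩ := exists_root D.hE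
  have h1 := trace_lower (D.V Y) (D.W Y) (T_psd h) (T_two h)
  rw [Data.B_eq, Data.B_sq hY, GT_trace h hY, T_sq h, Data.WW_trace hY] at h1
  refine le_trans (le_of_eq ?_) h1
  simp only [sum_add_distrib, sum_sub_distrib, mul_add, ← mul_sum]
  ring

lemma GV_line {i j : ι} (hi : D.st i = i) (hj : D.st j = j) :
    GV D i j = ((Real.sqrt (D.m i) * Real.sqrt (D.m j) : ℝ) : ℂ) * D.E i j := by
  unfold GV Data.α Data.β
  rw [if_pos hi, if_pos hj, if_pos hi, if_pos hj]
  push_cast
  ring

lemma GV_off_line {i j : ι} (hi : D.st i ≠ i) (hj : D.st j = j) :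
    GV D i j = ((Real.sqrt (D.m i) * Real.sqrt (D.m j) / 2 : ℝ) : ℂ) * (D.E i j + D.E (D.st i) j) := by
  unfold GV Data.α Data.β
  rw [if_neg hi, if_pos hj, if_neg hi, if_pos hj]
  push_cast
  ring

lemma GV_line_off {i j : ι} (hi : D.st i = i) (hj : D.st j ≠ j) :
    GV D i j = ((Real.sqrt (D.m i) * Real.sqrt (D.m j) / 2 : ℝ) : ℂ) * (D.E i j + D.E i (D.st j)) := by
  unfold GV Data.α Data.β
  rw [if_pos hi, if_neg hj, if_pos hi, if_neg hj]
  push_cast
  ring

lemma E_st' (i : ι) : D.E (D.st i) i = 1 := by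
  have := D.hE1 (D.st i)
  rwa [D.hst] at this

lemma sq_m (i : ι) : Real.sqrt (D.m i) * Real.sqrt (D.m i) = D.m i := Real.mul_self_sqrt (Nat.cast_nonneg _)

lemma GV_self_off {i : ι} (hi : D.st i ≠ i) :
    (GV D i i).re = D.m i / 4 * ((D.E i i).re + (D.E (D.st i) (D.st i)).re + 2) ∧
    (GV D (D.st i) i).re = D.m i / 4 * ((D.E i i).re + (D.E (D.st i) (D.st i)).re + 2) := by
  have hα : D.α i = Real.sqrt (D.m i) / 2 := by unfold Data.α; rw [if_neg hi]
  have hβ : D.β i = Real.sqrt (D.m i) / 2 := by unfold Data.β; rw [if_neg hi]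
  have hab := Data.αβ_st (D := D) i
  have hc4 : ((Real.sqrt (D.m i) / 2 : ℝ) : ℂ) * ((Real.sqrt (D.m i) / 2 : ℝ) : ℂ) = ((D.m i / 4 : ℝ) : ℂ) := by
    rw [← Complex.ofReal_mul]
    congr 1
    linear_combination sq_m (D := D) i / 4
  constructor
  · unfold GV
    rw [hα, hβ, hc4, D.hE1, E_st']
    simp only [Complex.add_re, Complex.re_ofReal_mul, Complex.one_re]
    ring
  · unfold GV
    rw [hab.1, hab.2, D.hst, hα, hβ, hc4, D.hE1, E_st']
    simp only [Complex.add_re, Complex.re_ofReal_mul, Complex.one_re]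
    ring

/-! ### a set `Q` of coupled indices on the line and a set `B` with private partners off the line -/

section coupled

variable (D) (Q B : Finset ι) (pi : ι → ι)

/-- `i` is the partner of `k` or the mirror image of it -/
def Par (k i : ι) : Prop := i = pi k ∨ i = D.st (pi k)

open Classical in
/-- diagonal -/
noncomputable def dQ (i : ι) : ℝ := if D.st i = i ∧ i ∉ Q ∧ i ∉ B then 2 else 1

open Classical in
/-- mirror entry -/
noncomputable def eB (i : ι) : ℝ := if D.st i = i then 0 else if ∃ k ∈ B, Par D pi k i then 1 / 2 else 1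

open Classical in
/-- coupling of `B` with the partners -/
noncomputable def cB (i j : ι) : ℝ := if (i ∈ B ∧ Par D pi i j) ∨ (j ∈ B ∧ Par D pi j i) then 1 / 2 else 0

/-- hypotheses on the partners -/
structure Part : Prop where
  line : ∀ i ∈ B, D.st i = i ∧ D.m i = 1 ∧ i ∉ Q
  off : ∀ i ∈ B, D.st (pi i) ≠ pi i
  inj : ∀ i ∈ B, ∀ j ∈ B, pi i = pi j → i = j
  inj' : ∀ i ∈ B, ∀ j ∈ B, pi i ≠ D.st (pi j)
  up : ∀ i ∈ B, (D.E (pi i) (pi i)).re + (D.E (D.st (pi i)) (D.st (pi i))).re ≤ 3
  lo : ∀ i ∈ B, 9 / 5 ≤ (D.E (pi i) i).re + (D.E (D.st (pi i)) i).re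

variable {D Q B pi}

lemma Part.uniq (h : Part D Q B pi) {k l i : ι} (hk : k ∈ B) (hl : l ∈ B) (h1 : Par D pi k i) (h2 : Par D pi l i) : k = l := by
  unfold Par at h1 h2
  rcases h1 with h1 | h1 <;> rcases h2 with h2 | h2
  · exact h.inj k hk l hl (h1.symm.trans h2)
  · exact absurd (h1.symm.trans h2) (h.inj' k hk l hl)
  · exact absurd (h2.symm.trans h1) (h.inj' l hl k hk)
  · apply h.inj k hk l hl
    have := h1.symm.trans h2
    have h3 := congrArg D.st this
    rwa [D.hst, D.hst] at h3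

lemma Part.par_off (h : Part D Q B pi) {k i : ι} (hk : k ∈ B) (h1 : Par D pi k i) : D.st i ≠ i := by
  rcases h1 with h1 | h1
  · rw [h1]; exact h.off k hk
  · rw [h1, D.hst]
    exact fun e => h.off k hk e.symm

lemma par_st {k i : ι} (h1 : Par D pi k i) : Par D pi k (D.st i) := by
  rcases h1 with h1 | h1
  · right; rw [h1]
  · left; rw [h1, D.hst]

/-- admissibility of `c` on `Q` -/
structure AdmQ (D : Data ι) (Q : Finset ι) (c : ι → ι → ℂ) : Prop where
  line : ∀ i ∈ Q, D.st i = i
  herm : ∀ i j, c j i = conj (c i j)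
  supp : ∀ i j, c i j ≠ 0 → i ≠ j ∧ i ∈ Q
  row : ∀ i ∈ Q, ∑ j, ‖c i j‖ ≤ 1

lemma AdmQ.sr {c : ι → ι → ℂ} (h : AdmQ D Q c) {i j : ι} (h0 : c i j ≠ 0) : j ∈ Q := by
  refine (h.supp j i ?_).2
  rw [h.herm]
  exact (map_ne_zero _).2 h0

lemma cB_zero_of_Q (hP : Part D Q B pi) (hQ : ∀ i ∈ Q, D.st i = i) {i : ι} (hi : i ∈ Q) (j : ι) : cB D B pi i j = 0 := by
  unfold cB
  rw [if_neg]
  rintro (⟨h1, -⟩ | ⟨h1, h2⟩)
  · exact (hP.line i h1).2.2 hi
  · exact hP.par_off h1 h2 (hQ i hi)

lemma cB_symm (i j : ι) : cB D B pi j i = cB D B pi i j := by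
  unfold cB
  by_cases h : (i ∈ B ∧ Par D pi i j) ∨ (j ∈ B ∧ Par D pi j i)
  · rw [if_pos h, if_pos (Or.comm.1 h)]
  · rw [if_neg h, if_neg (fun h' => h (Or.comm.1 h'))]

/-- a row in `B` -/
lemma row_B (hP : Part D Q B pi) {i : ι} (hi : i ∈ B) (f : ι → ℝ) :
    ∑ j, (if cB D B pi i j = 0 then 0 else f j) = f (pi i) + f (D.st (pi i)) := by
  have h1 : ∀ j, (if cB D B pi i j = 0 then 0 else f j) = (if j = pi i then f j else 0) + (if j = D.st (pi i) then f j else 0) := by
    intro j
    have hne : pi i ≠ D.st (pi i) := hP.inj' i hi i hi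
    have h2 : (cB D B pi i j = 0) ↔ ¬ Par D pi i j := by
      unfold cB
      constructor
      · intro h h'
        rw [if_pos (Or.inl ⟨hi, h'⟩)] at h
        norm_num at h
      · intro h
        rw [if_neg]
        rintro (⟨-, h3⟩ | ⟨h3, h4⟩)
        · exact h h3
        · exact hP.par_off h3 h4 (hP.line i hi).1
    by_cases h3 : j = pi i
    · have h4 : ¬ (j = D.st (pi i)) := fun e => hne (h3.symm.trans e)
      rw [if_neg (fun h => (h2.1 h) (Or.inl h3)), if_pos h3, if_neg h4, add_zero]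
    · by_cases h4 : j = D.st (pi i)
      · rw [if_neg (fun h => (h2.1 h) (Or.inr h4)), if_neg h3, if_pos h4, zero_add]
      · rw [if_pos (h2.2 (fun h => h.elim h3 h4)), if_neg h3, if_neg h4, add_zero]
  simp only [h1, sum_add_distrib]
  rw [Finset.sum_ite_eq' univ (pi i), Finset.sum_ite_eq' univ (D.st (pi i))]
  simp

/-- the row of a partner -/
lemma row_P (hP : Part D Q B pi) {i k : ι} (hk : k ∈ B) (hi : Par D pi k i) (f : ι → ℝ) :
    ∑ j, (if cB D B pi i j = 0 then 0 else f j) = f k := by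
  have h1 : ∀ j, (if cB D B pi i j = 0 then 0 else f j) = (if j = k then f j else 0) := by
    intro j
    have h2 : (cB D B pi i j = 0) ↔ j ≠ k := by
      unfold cB
      constructor
      · intro h h'
        rw [if_pos (Or.inr ⟨by rw [h']; exact hk, by rw [h']; exact hi⟩)] at h
        norm_num at h
      · intro h
        rw [if_neg]
        rintro (⟨h3, -⟩ | ⟨h3, h4⟩)
        · exact hP.par_off hk hi (hP.line i h3).1
        · exact h (hP.uniq h3 hk h4 hi)
    by_cases h3 : j = k
    · rw [if_neg (fun h => (h2.1 h) h3), if_pos h3]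
    · rw [if_pos (h2.2 h3), if_neg h3]
  simp only [h1]
  rw [Finset.sum_ite_eq' univ k]
  simp

/-- all other rows -/
lemma row_O {i : ι} (hi : i ∉ B) (h : ∀ k ∈ B, ¬ Par D pi k i) (f : ι → ℝ) :
    ∑ j, (if cB D B pi i j = 0 then 0 else f j) = 0 := by
  refine sum_eq_zero fun j _ => ?_
  rw [if_pos]
  unfold cB
  rw [if_neg]
  rintro (⟨h3, -⟩ | ⟨h3, h4⟩)
  · exact hi h3
  · exact h j h3 h4

lemma cB_val (i j : ι) : cB D B pi i j = if cB D B pi i j = 0 then 0 else 1 / 2 := by
  unfold cB
  by_cases h : (i ∈ B ∧ Par D pi i j) ∨ (j ∈ B ∧ Par D pi j i)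
  · rw [if_pos h]; norm_num
  · rw [if_neg h]; norm_num

lemma E_herm (i j : ι) : (D.E j i).re = (D.E i j).re := by
  rw [← D.hE.1.apply j i]
  simp

lemma AdmQ.off {c : ι → ι → ℂ} (h : AdmQ D Q c) {i : ι} (hi : i ∉ Q) (j : ι) : c i j = 0 := by
  by_contra h0
  exact hi (h.supp i j h0).2

lemma norm_cB (i j : ι) : ‖((cB D B pi i j : ℝ) : ℂ)‖ = if cB D B pi i j = 0 then 0 else 1 / 2 := by
  rw [Complex.norm_real, Real.norm_eq_abs]
  conv_lhs => rw [cB_val]
  split_ifs <;> norm_num

lemma rows {c : ι → ι → ℂ} (hQ : AdmQ D Q c) (hP : Part D Q B pi) (i : ι) :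
    eB D B pi i + ∑ j, ‖c i j + (cB D B pi i j : ℝ)‖ ≤ dQ D Q B i ∧
    eB D B pi i + ∑ j, ‖c i j + (cB D B pi i j : ℝ)‖ ≤ 2 - dQ D Q B i := by
  by_cases h1 : i ∈ Q
  · have h2 : eB D B pi i = 0 := by unfold eB; rw [if_pos (hQ.line i h1)]
    have h3 : dQ D Q B i = 1 := by unfold dQ; rw [if_neg (fun h => h.2.1 h1)]
    have h4 : ∑ j, ‖c i j + (cB D B pi i j : ℝ)‖ = ∑ j, ‖c i j‖ := by
      refine sum_congr rfl fun j _ => ?_
      rw [cB_zero_of_Q hP hQ.line h1, Complex.ofReal_zero, add_zero]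
    have h5 := hQ.row i h1
    rw [h2, h3, h4]
    constructor <;> linarith
  · have h4 : ∑ j, ‖c i j + (cB D B pi i j : ℝ)‖ = ∑ j, (if cB D B pi i j = 0 then (0:ℝ) else 1 / 2) := by
      refine sum_congr rfl fun j _ => ?_
      rw [hQ.off h1, zero_add, norm_cB]
    rw [h4]
    by_cases h2 : i ∈ B
    · have h3 : eB D B pi i = 0 := by unfold eB; rw [if_pos (hP.line i h2).1]
      have h5 : dQ D Q B i = 1 := by unfold dQ; rw [if_neg (fun h => h.2.2 h2)]
      rw [row_B hP h2 (fun _ => (1 / 2 : ℝ)), h3, h5]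
      norm_num
    · by_cases h3 : ∃ k ∈ B, Par D pi k i
      · obtain ⟨k, hk, hki⟩ := h3
        have h5 := hP.par_off hk hki
        have h6 : eB D B pi i = 1 / 2 := by unfold eB; rw [if_neg h5, if_pos ⟨k, hk, hki⟩]
        have h7 : dQ D Q B i = 1 := by unfold dQ; rw [if_neg (fun h => h5 h.1)]
        rw [row_P hP hk hki (fun _ => (1 / 2 : ℝ)), h6, h7]
        norm_num
      · rw [row_O h2 (fun k hk h => h3 ⟨k, hk, h⟩) (fun _ => (1 / 2 : ℝ)), add_zero]
        by_cases h5 : D.st i = i
        · have h6 : eB D B pi i = 0 := by unfold eB; rw [if_pos h5]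
          have h7 : dQ D Q B i = 2 := by unfold dQ; rw [if_pos ⟨h5, h1, h2⟩]
          rw [h6, h7]
          norm_num
        · have h6 : eB D B pi i = 1 := by unfold eB; rw [if_neg h5, if_neg h3]
          have h7 : dQ D Q B i = 1 := by unfold dQ; rw [if_neg (fun h => h5 h.1)]
          rw [h6, h7]
          norm_num

lemma adm {c : ι → ι → ℂ} (hQ : AdmQ D Q c) (hP : Part D Q B pi) :
    Adm D (dQ D Q B) (eB D B pi) (fun i j => c i j + (cB D B pi i j : ℝ)) where
  herm i j := by
    show c j i + ((cB D B pi j i : ℝ) : ℂ) = conj (c i j + ((cB D B pi i j : ℝ) : ℂ))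
    rw [map_add, Complex.conj_ofReal, ← hQ.herm, cB_symm]
  supp i j h := by
    have h' : c i j + ((cB D B pi i j : ℝ) : ℂ) ≠ 0 := h
    by_cases h1 : i ∈ Q
    · rw [cB_zero_of_Q hP hQ.line h1, Complex.ofReal_zero, add_zero] at h'
      have h2 := (hQ.supp i j h').1
      refine ⟨h2, ?_⟩
      rw [hQ.line i h1]
      exact h2.symm
    · rw [hQ.off h1, zero_add] at h'
      have h2 : cB D B pi i j ≠ 0 := by
        intro h3
        exact h' (by rw [h3]; simp)
      have h2' : (i ∈ B ∧ Par D pi i j) ∨ (j ∈ B ∧ Par D pi j i) := by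
        by_contra h3
        apply h2
        unfold cB
        rw [if_neg h3]
      rcases h2' with ⟨h3, h4⟩ | ⟨h3, h4⟩
      · have h5 := hP.par_off h3 h4
        have h6 := (hP.line i h3).1
        refine ⟨fun e => h5 (by rw [← e]; exact h6), ?_⟩
        rw [h6]
        exact fun e => h5 (by rw [e]; exact h6)
      · have h5 := hP.par_off h3 h4
        have h6 := (hP.line j h3).1
        refine ⟨fun e => h5 (by rw [e]; exact h6), fun e => ?_⟩
        have h7 := congrArg D.st e
        rw [D.hst, h6] at h7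
        exact h5 (by rw [← h7]; exact h6)
  e0 i := by unfold eB; split_ifs <;> norm_num
  est i := by
    unfold eB
    by_cases h : D.st i = i
    · rw [if_pos (by rw [h, h]), if_pos h]
    · rw [if_neg (by rw [D.hst]; exact fun e => h e.symm), if_neg h]
      by_cases h2 : ∃ k ∈ B, Par D pi k i
      · obtain ⟨k, hk, h3⟩ := h2
        rw [if_pos ⟨k, hk, par_st h3⟩, if_pos ⟨k, hk, h3⟩]
      · rw [if_neg, if_neg h2]
        rintro ⟨k, hk, h3⟩
        apply h2
        refine ⟨k, hk, ?_⟩
        have := par_st h3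
        rwa [D.hst] at this
  e1 i h := by unfold eB; rw [if_pos h]
  row1 i := (rows hQ hP i).1
  row2 i := (rows hQ hP i).2

open Classical in
/-- **the main inequality with coupled off-line pairs** -/
theorem main_coupled {c : ι → ι → ℂ} (hQ : AdmQ D Q c) (hP : Part D Q B pi) :
    ∑ i, (if D.st i = i then (if i ∈ Q then 2 * (D.m i : ℝ) - 1 else if i ∈ B then 2 * (D.m i : ℝ) else 4 * (D.m i : ℝ) - 4)
      else 2 * (D.m i : ℝ)) +
      ∑ i, ∑ j, (2 * (Real.sqrt (D.m i) * Real.sqrt (D.m j)) * (D.E j i * c i j).re - ‖c i j‖ ^ 2) ≤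
    (∑ i, ∑ j, (D.m i : ℂ) * D.m j * (D.E (D.st i) j * D.E (D.st j) i)).re := by
  refine le_trans ?_ (main_gen (adm hQ hP))
  rw [← sum_add_distrib]
  refine sum_le_sum fun i _ => ?_
  have hm : (1:ℝ) ≤ D.m i := by exact_mod_cast D.hm i
  have hs1 : (1:ℝ) ≤ Real.sqrt (D.m i) := by rw [Real.one_le_sqrt]; exact hm
  by_cases h1 : i ∈ Q
  · have h2 : eB D B pi i = 0 := by unfold eB; rw [if_pos (hQ.line i h1)]
    have h3 : dQ D Q B i = 1 := by unfold dQ; rw [if_neg (fun h => h.2.1 h1)]
    have h4 := hQ.line i h1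
    have h5 : (GV D i i).re = D.m i := by
      rw [GV_line h4 h4, Complex.re_ofReal_mul, sq_m]
      have : D.E i i = 1 := by have := D.hE1 i; rwa [h4] at this
      rw [this]
      simp
    have h6 : D.β i = 0 := by unfold Data.β; rw [if_pos h4]
    have h7 : ∀ j, (2 * (GV D j i * (c i j + ((cB D B pi i j : ℝ) : ℂ))).re - ‖c i j + ((cB D B pi i j : ℝ) : ℂ)‖ ^ 2) =
        2 * (Real.sqrt (D.m i) * Real.sqrt (D.m j)) * (D.E j i * c i j).re - ‖c i j‖ ^ 2 := by
      intro j
      rw [cB_zero_of_Q hP hQ.line h1, Complex.ofReal_zero, add_zero]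
      by_cases h8 : c i j = 0
      · rw [h8]; simp
      · rw [GV_line (hQ.line j (hQ.sr h8)) h4, mul_assoc, Complex.re_ofReal_mul]
        ring
    simp only [h7]
    rw [if_pos h4, if_pos h1, h2, h3, h5, h6]
    linarith
  · have h7 : ∀ j, (2 * (Real.sqrt (D.m i) * Real.sqrt (D.m j)) * (D.E j i * c i j).re - ‖c i j‖ ^ 2) = 0 := by
      intro j
      rw [hQ.off h1]
      simp
    have h8 : ∀ j, (2 * (GV D j i * (c i j + ((cB D B pi i j : ℝ) : ℂ))).re - ‖c i j + ((cB D B pi i j : ℝ) : ℂ)‖ ^ 2) =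
        if cB D B pi i j = 0 then 0 else ((GV D j i).re - 1 / 4) := by
      intro j
      rw [hQ.off h1, zero_add, norm_cB]
      by_cases h9 : cB D B pi i j = 0
      · rw [h9]; simp
      · have h10 : cB D B pi i j = 1 / 2 := by rw [cB_val, if_neg h9]
        rw [if_neg h9, if_neg h9, h10, Complex.re_mul_ofReal]
        ring
    simp only [h7, h8, sum_const_zero, add_zero]
    by_cases h2 : i ∈ B
    · obtain ⟨b1, b2, b3⟩ := hP.line i h2
      have h3 : eB D B pi i = 0 := by unfold eB; rw [if_pos b1]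
      have h5 : dQ D Q B i = 1 := by unfold dQ; rw [if_neg (fun h => h.2.2 h2)]
      have h6 : (GV D i i).re = D.m i := by
        rw [GV_line b1 b1, Complex.re_ofReal_mul, sq_m]
        have : D.E i i = 1 := by have := D.hE1 i; rwa [b1] at this
        rw [this]
        simp
      have hβ : D.β i = 0 := by unfold Data.β; rw [if_pos b1]
      have hoff := hP.off i h2
      have hoff' : D.st (D.st (pi i)) ≠ D.st (pi i) := by rw [D.hst]; exact fun e => hoff e.symm
      have hlo := hP.lo i h2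
      have hms : D.m (D.st (pi i)) = D.m (pi i) := D.hms _
      have hmp : (1:ℝ) ≤ D.m (pi i) := by exact_mod_cast D.hm (pi i)
      have hsp : (1:ℝ) ≤ Real.sqrt (D.m (pi i)) := by rw [Real.one_le_sqrt]; exact hmp
      rw [row_B hP h2 (fun j => (GV D j i).re - 1 / 4), if_pos b1, if_neg h1, if_pos h2, h3, h5, h6, hβ,
        GV_off_line hoff b1, GV_off_line hoff' b1, D.hst, hms, b2, Complex.re_ofReal_mul, Complex.re_ofReal_mul,
        Complex.add_re, Complex.add_re]
      norm_num
      nlinarith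
    · by_cases h3 : ∃ k ∈ B, Par D pi k i
      · obtain ⟨k, hk, hki⟩ := h3
        have h5 := hP.par_off hk hki
        have h6 : eB D B pi i = 1 / 2 := by unfold eB; rw [if_neg h5, if_pos ⟨k, hk, hki⟩]
        have h9 : dQ D Q B i = 1 := by unfold dQ; rw [if_neg (fun h => h5 h.1)]
        have hup : (D.E i i).re + (D.E (D.st i) (D.st i)).re ≤ 3 := by
          have := hP.up k hk
          rcases hki with e | e
          · rw [e]; exact this
          · rw [e, D.hst]; linarith
        have hlo : 9 / 5 ≤ (D.E k i).re + (D.E k (D.st i)).re := by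
          have := hP.lo k hk
          rw [E_herm (D := D) i k, E_herm (D := D) (D.st i) k] at *
          rcases hki with e | e
          · rw [e]
            exact this
          · rw [e, D.hst]
            linarith
        have hβ2 : D.β i ^ 2 = D.m i / 4 := by
          unfold Data.β
          rw [if_neg h5]
          linear_combination sq_m (D := D) i / 4
        have hG := GV_self_off (D := D) h5
        rw [row_P hP hk hki (fun j => (GV D j i).re - 1 / 4), if_neg h5, h6, h9, hG.1, hG.2, hβ2,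
          GV_line_off (hP.line k hk).1 h5, (hP.line k hk).2.1, Complex.re_ofReal_mul, Complex.add_re]
        norm_num
        nlinarith
      · rw [row_O h2 (fun k hk h => h3 ⟨k, hk, h⟩) (fun j => (GV D j i).re - 1 / 4), add_zero]
        by_cases h5 : D.st i = i
        · have h6 : eB D B pi i = 0 := by unfold eB; rw [if_pos h5]
          have h9 : dQ D Q B i = 2 := by unfold dQ; rw [if_pos ⟨h5, h1, h2⟩]
          have h10 : (GV D i i).re = D.m i := by
            rw [GV_line h5 h5, Complex.re_ofReal_mul, sq_m]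
            have : D.E i i = 1 := by have := D.hE1 i; rwa [h5] at this
            rw [this]
            simp
          have hβ : D.β i = 0 := by unfold Data.β; rw [if_pos h5]
          rw [if_pos h5, if_neg h1, if_neg h2, h6, h9, h10, hβ]
          linarith
        · have h6 : eB D B pi i = 1 := by unfold eB; rw [if_neg h5, if_neg h3]
          have h9 : dQ D Q B i = 1 := by unfold dQ; rw [if_neg (fun h => h5 h.1)]
          have hβ2 : D.β i ^ 2 = D.m i / 4 := by
            unfold Data.β
            rw [if_neg h5]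
            linear_combination sq_m (D := D) i / 4
          have hG := GV_self_off (D := D) h5
          rw [if_neg h5, h6, h9, hG.1, hG.2, hβ2]
          linarith

end coupled

end Pool.Agent.Helper49.RT
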