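import Mathlib

/-!
# RT project: matching of near points with a general correlation `g`

`W` a finite set of reals in which every point has another point at distance `≤ b`, `0 < g ≤ 1`. Then `W` is cut into pairs and
triples of consecutive points; the coupling is `g` on the pairs and `min g (1/2)` on the two short sides of the triples.
(Modelled on `Pool.Agent.Helper6.RT.near`.)
-/

set_option autoImplicit false

open Finset

namespace Pool.Agent.Helper49.RT

/-- the properties of a matching of `W` -/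
structure Mat (W : Finset ℝ) (b g : ℝ) (c : ℝ → ℝ → ℝ) : Prop where
  sym : ∀ u v, c u v = c v u
  diag : ∀ u, c u u = 0
  nn : ∀ u v, 0 ≤ c u v
  supp : ∀ u v, c u v ≠ 0 → u ∈ W ∧ v ∈ W ∧ |u - v| ≤ b
  row : ∀ u ∈ W, ∑ v ∈ W, c u v ≤ 1
  gain : g ^ 2 * W.card ≤ ∑ u ∈ W, ∑ v ∈ W, (2 * g * c u v - c u v ^ 2)

lemma Mat.glue {A W' : Finset ℝ} (hd : Disjoint A W') {b g : ℝ} {c₀ c₁ : ℝ → ℝ → ℝ} (h0 : Mat A b g c₀) (h1 : Mat W' b g c₁) :
    Mat (A ∪ W') b g (fun u v => c₀ u v + c₁ u v) := by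
  have hA0 : ∀ u v, (u ∉ A ∨ v ∉ A) → c₀ u v = 0 := by
    intro u v h
    by_contra h'
    have := h0.supp u v h'
    tauto
  have hW0 : ∀ u v, (u ∉ W' ∨ v ∉ W') → c₁ u v = 0 := by
    intro u v h
    by_contra h'
    have := h1.supp u v h'
    tauto
  have hAW : ∀ u ∈ A, u ∉ W' := fun u hu hu' => Finset.disjoint_left.1 hd hu hu'
  have hWA : ∀ u ∈ W', u ∉ A := fun u hu hu' => Finset.disjoint_left.1 hd hu' hu
  refine ⟨fun u v => ?_, fun u => ?_, fun u v => ?_, fun u v h => ?_, fun u hu => ?_, ?_⟩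
  · show c₀ u v + c₁ u v = c₀ v u + c₁ v u
    rw [h0.sym, h1.sym]
  · show c₀ u u + c₁ u u = 0
    rw [h0.diag, h1.diag, add_zero]
  · show 0 ≤ c₀ u v + c₁ u v
    have := h0.nn u v
    have := h1.nn u v
    linarith
  · have h' : c₀ u v + c₁ u v ≠ 0 := h
    by_cases h0' : c₀ u v = 0
    · have h1' : c₁ u v ≠ 0 := fun e => h' (by rw [h0', e, add_zero])
      have h2 := h1.supp u v h1'
      exact ⟨mem_union_right _ h2.1, mem_union_right _ h2.2.1, h2.2.2⟩
    · have h2 := h0.supp u v h0'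
      exact ⟨mem_union_left _ h2.1, mem_union_left _ h2.2.1, h2.2.2⟩
  · show ∑ v ∈ A ∪ W', (c₀ u v + c₁ u v) ≤ 1
    rw [sum_union hd, sum_add_distrib, sum_add_distrib]
    rcases mem_union.1 hu with h | h
    · have e1 : ∑ v ∈ A, c₁ u v = 0 := sum_eq_zero fun v _ => hW0 u v (Or.inl (hAW u h))
      have e2 : ∑ v ∈ W', c₀ u v = 0 := sum_eq_zero fun v hv => hA0 u v (Or.inr (hWA v hv))
      have e3 : ∑ v ∈ W', c₁ u v = 0 := sum_eq_zero fun v _ => hW0 u v (Or.inl (hAW u h))
      have := h0.row u h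
      linarith
    · have e1 : ∑ v ∈ A, c₁ u v = 0 := sum_eq_zero fun v hv => hW0 u v (Or.inr (hAW v hv))
      have e2 : ∑ v ∈ W', c₀ u v = 0 := sum_eq_zero fun v _ => hA0 u v (Or.inl (hWA u h))
      have e3 : ∑ v ∈ A, c₀ u v = 0 := sum_eq_zero fun v _ => hA0 u v (Or.inl (hWA u h))
      have := h1.row u h
      linarith
  · show g ^ 2 * ((A ∪ W').card : ℝ) ≤ ∑ u ∈ A ∪ W', ∑ v ∈ A ∪ W', (2 * g * (c₀ u v + c₁ u v) - (c₀ u v + c₁ u v) ^ 2)
    rw [card_union_of_disjoint hd, sum_union hd]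
    have e1 : ∀ u ∈ A, ∑ v ∈ A ∪ W', (2 * g * (c₀ u v + c₁ u v) - (c₀ u v + c₁ u v) ^ 2) =
        ∑ v ∈ A, (2 * g * c₀ u v - c₀ u v ^ 2) := by
      intro u hu
      rw [sum_union hd]
      have e2 : ∑ v ∈ W', (2 * g * (c₀ u v + c₁ u v) - (c₀ u v + c₁ u v) ^ 2) = 0 := by
        refine sum_eq_zero fun v hv => ?_
        rw [hA0 u v (Or.inr (hWA v hv)), hW0 u v (Or.inl (hAW u hu))]
        ring
      rw [e2, add_zero]
      refine sum_congr rfl fun v _ => ?_
      rw [hW0 u v (Or.inl (hAW u hu)), add_zero]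
    have e3 : ∀ u ∈ W', ∑ v ∈ A ∪ W', (2 * g * (c₀ u v + c₁ u v) - (c₀ u v + c₁ u v) ^ 2) =
        ∑ v ∈ W', (2 * g * c₁ u v - c₁ u v ^ 2) := by
      intro u hu
      rw [sum_union hd]
      have e2 : ∑ v ∈ A, (2 * g * (c₀ u v + c₁ u v) - (c₀ u v + c₁ u v) ^ 2) = 0 := by
        refine sum_eq_zero fun v hv => ?_
        rw [hA0 u v (Or.inl (hWA u hu)), hW0 u v (Or.inr (hAW v hv))]
        ring
      rw [e2, zero_add]
      refine sum_congr rfl fun v _ => ?_
      rw [hA0 u v (Or.inl (hWA u hu)), zero_add]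
    rw [sum_congr rfl e1, sum_congr rfl e3]
    push_cast
    have := h0.gain
    have := h1.gain
    linarith

lemma mat_empty (b g : ℝ) : Mat ∅ b g (fun _ _ => 0) :=
  ⟨fun _ _ => rfl, fun _ => rfl, fun _ _ => le_rfl, fun _ _ h => absurd rfl h, fun u hu => absurd hu (by simp), by simp⟩

lemma mat_pair {u v b g : ℝ} (huv : u < v) (hb : v - u ≤ b) (hg0 : 0 < g) (hg1 : g ≤ 1) : ∃ c, Mat {u, v} b g c := by
  have hne : u ≠ v := huv.ne
  have hne' : v ≠ u := huv.ne'
  refine ⟨fun x y => if (x = u ∧ y = v) ∨ (x = v ∧ y = u) then g else 0, fun x y => ?_, fun x => ?_, fun x y => ?_,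
    fun x y h => ?_, fun x hx => ?_, ?_⟩
  · show (if (x = u ∧ y = v) ∨ (x = v ∧ y = u) then g else 0) = (if (y = u ∧ x = v) ∨ (y = v ∧ x = u) then g else 0)
    refine if_congr ?_ rfl rfl
    tauto
  · show (if (x = u ∧ x = v) ∨ (x = v ∧ x = u) then g else 0) = 0
    rw [if_neg]
    rintro (⟨h1, h2⟩ | ⟨h1, h2⟩)
    · exact hne (h1.symm.trans h2)
    · exact hne' (h1.symm.trans h2)
  · show 0 ≤ (if (x = u ∧ y = v) ∨ (x = v ∧ y = u) then g else 0)
    split_ifs
    · exact hg0.le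
    · exact le_rfl
  · have h' : (if (x = u ∧ y = v) ∨ (x = v ∧ y = u) then g else 0) ≠ 0 := h
    have h2 : (x = u ∧ y = v) ∨ (x = v ∧ y = u) := by
      by_contra h3
      rw [if_neg h3] at h'
      exact h' rfl
    rcases h2 with ⟨rfl, rfl⟩ | ⟨rfl, rfl⟩
    · refine ⟨by simp, by simp, ?_⟩
      rw [abs_le]; constructor <;> linarith
    · refine ⟨by simp, by simp, ?_⟩
      rw [abs_le]; constructor <;> linarith
  · show ∑ y ∈ ({u, v} : Finset ℝ), (if (x = u ∧ y = v) ∨ (x = v ∧ y = u) then g else 0) ≤ 1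
    rw [sum_pair hne]
    rw [mem_insert, mem_singleton] at hx
    rcases hx with rfl | rfl
    · simp [hne, hne']; exact hg1
    · simp [hne, hne']; exact hg1
  · show g ^ 2 * ((({u, v} : Finset ℝ).card : ℕ) : ℝ) ≤ ∑ x ∈ ({u, v} : Finset ℝ), ∑ y ∈ ({u, v} : Finset ℝ),
      (2 * g * (if (x = u ∧ y = v) ∨ (x = v ∧ y = u) then g else 0) - (if (x = u ∧ y = v) ∨ (x = v ∧ y = u) then g else 0) ^ 2)
    rw [card_pair hne, sum_pair hne, sum_pair hne, sum_pair hne]
    simp only [hne, hne', and_self, and_false, false_and, or_false, false_or, or_self, if_true, if_false, and_true, true_and]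
    norm_num
    nlinarith

lemma mat_triple {u v w b g : ℝ} (huv : u < v) (hvw : v < w) (hb : v - u ≤ b) (hb' : w - v ≤ b) (hg0 : 0 < g) (hg1 : g ≤ 1) :
    ∃ c, Mat {u, v, w} b g c := by
  have n1 : u ≠ v := huv.ne
  have n1' : v ≠ u := huv.ne'
  have n2 : v ≠ w := hvw.ne
  have n2' : w ≠ v := hvw.ne'
  have n3 : u ≠ w := (huv.trans hvw).ne
  have n3' : w ≠ u := (huv.trans hvw).ne'
  set t : ℝ := min g (1 / 2) with ht
  have ht0 : 0 < t := by rw [ht]; positivity
  have ht1 : t ≤ 1 / 2 := min_le_right _ _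
  have htg : 3 * g ^ 2 ≤ 4 * (2 * g * t - t ^ 2) := by
    rcases le_total g (1 / 2) with h | h
    · rw [ht, min_eq_left h]; nlinarith
    · rw [ht, min_eq_right h]; nlinarith
  set P : ℝ → ℝ → Prop := fun x y => (x = u ∧ y = v) ∨ (x = v ∧ y = u) ∨ (x = v ∧ y = w) ∨ (x = w ∧ y = v) with hP
  have hPd : ∀ x y, Decidable (P x y) := fun x y => by rw [hP]; infer_instance
  refine ⟨fun x y => if P x y then t else 0, fun x y => ?_, fun x => ?_, fun x y => ?_,
    fun x y h => ?_, fun x hx => ?_, ?_⟩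
  · show (if P x y then t else 0) = (if P y x then t else 0)
    refine if_congr ?_ rfl rfl
    simp only [hP]
    tauto
  · show (if P x x then t else 0) = 0
    rw [if_neg]
    simp only [hP]
    rintro (⟨h1, h2⟩ | ⟨h1, h2⟩ | ⟨h1, h2⟩ | ⟨h1, h2⟩)
    · exact n1 (h1.symm.trans h2)
    · exact n1' (h1.symm.trans h2)
    · exact n2 (h1.symm.trans h2)
    · exact n2' (h1.symm.trans h2)
  · show 0 ≤ (if P x y then t else 0)
    split_ifs
    · exact ht0.le
    · exact le_rfl
  · have h' : (if P x y then t else 0) ≠ 0 := h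
    have h2 : P x y := by
      by_contra h3
      rw [if_neg h3] at h'
      exact h' rfl
    rcases h2 with ⟨rfl, rfl⟩ | ⟨rfl, rfl⟩ | ⟨rfl, rfl⟩ | ⟨rfl, rfl⟩ <;> refine ⟨by simp, by simp, ?_⟩ <;>
      (rw [abs_le]; constructor <;> linarith)
  · show ∑ y ∈ ({u, v, w} : Finset ℝ), (if P x y then t else 0) ≤ 1
    rw [sum_insert (by simp [n1, n3]), sum_pair n2]
    rw [mem_insert, mem_insert, mem_singleton] at hx
    rcases hx with rfl | rfl | rfl
    · simp only [hP, n1, n1', n2, n2', n3, n3', and_self, and_false, false_and, or_false, false_or, or_self, if_true, if_false,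
        and_true, true_and]
      linarith
    · simp only [hP, n1, n1', n2, n2', n3, n3', and_self, and_false, false_and, or_false, false_or, or_self, if_true, if_false,
        and_true, true_and, true_or, or_true]
      linarith
    · simp only [hP, n1, n1', n2, n2', n3, n3', and_self, and_false, false_and, or_false, false_or, or_self, if_true, if_false,
        and_true, true_and]
      linarith
  · show g ^ 2 * ((({u, v, w} : Finset ℝ).card : ℕ) : ℝ) ≤ ∑ x ∈ ({u, v, w} : Finset ℝ), ∑ y ∈ ({u, v, w} : Finset ℝ),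
      (2 * g * (if P x y then t else 0) - (if P x y then t else 0) ^ 2)
    have hcard : (({u, v, w} : Finset ℝ).card : ℝ) = 3 := by
      rw [Finset.card_eq_three.2 ⟨u, v, w, n1, n3, n2, rfl⟩]
      norm_num
    rw [hcard]
    rw [sum_insert (by simp [n1, n3]), sum_pair n2]
    rw [sum_insert (by simp [n1, n3]), sum_pair n2, sum_insert (by simp [n1, n3]), sum_pair n2,
      sum_insert (by simp [n1, n3]), sum_pair n2]
    simp only [hP, n1, n1', n2, n2', n3, n3', and_self, and_false, false_and, or_false, false_or, or_self, if_true, if_false,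
      and_true, true_and, true_or, or_true]
    nlinarith

/-- **near points are matched** -/
theorem near2 {b g : ℝ} (hg0 : 0 < g) (hg1 : g ≤ 1) (W : Finset ℝ) (hW : ∀ u ∈ W, ∃ v ∈ W, v ≠ u ∧ |u - v| ≤ b) :
    ∃ c, Mat W b g c := by
  classical
  induction W using Finset.strongInduction with
  | H W ih =>
  by_cases hne : W = ∅
  · subst hne
    exact ⟨_, mat_empty b g⟩
  have hne' : W.Nonempty := Finset.nonempty_iff_ne_empty.2 hne
  obtain ⟨u, huW, humin⟩ : ∃ u ∈ W, ∀ x ∈ W, u ≤ x := ⟨W.min' hne', W.min'_mem hne', fun x hx => W.min'_le x hx⟩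
  obtain ⟨v₀, hv₀, hv₀u, hv₀b⟩ := hW u huW
  have hne1 : (W.erase u).Nonempty := ⟨v₀, mem_erase.2 ⟨hv₀u, hv₀⟩⟩
  obtain ⟨v, hvW1, hvmin⟩ : ∃ v ∈ W.erase u, ∀ x ∈ W.erase u, v ≤ x :=
    ⟨(W.erase u).min' hne1, Finset.min'_mem _ hne1, fun x hx => Finset.min'_le _ x hx⟩
  have hvW : v ∈ W := mem_of_mem_erase hvW1
  have hvu : v ≠ u := ne_of_mem_erase hvW1
  have huv : u < v := lt_of_le_of_ne (humin v hvW) hvu.symm
  have hb0 : v ≤ v₀ := hvmin v₀ (mem_erase.2 ⟨hv₀u, hv₀⟩)
  have huvb : v - u ≤ b := by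
    have := abs_le.1 hv₀b
    linarith [this.1]
  have hbpos : 0 < b := by linarith
  set W1 := (W.erase u).erase v with hW1
  have hm1 : ∀ x, x ∈ W1 ↔ x ≠ v ∧ x ≠ u ∧ x ∈ W := by
    intro x
    rw [hW1, mem_erase, mem_erase]
  have hgt : ∀ x ∈ W1, v < x := by
    intro x hx
    rw [hm1] at hx
    exact lt_of_le_of_ne (hvmin x (mem_erase.2 ⟨hx.2.1, hx.2.2⟩)) hx.1.symm
  have hlt1 : W1 ⊂ W := by
    refine (Finset.ssubset_iff_of_subset fun x hx => ((hm1 x).1 hx).2.2).2 ⟨u, huW, fun h => ?_⟩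
    exact ((hm1 u).1 h).2.1 rfl
  have hWeq : W = {u, v} ∪ W1 := by
    ext x
    rw [mem_union, mem_insert, mem_singleton, hm1]
    constructor
    · intro hx
      by_cases h1 : x = u
      · exact Or.inl (Or.inl h1)
      · by_cases h2 : x = v
        · exact Or.inl (Or.inr h2)
        · exact Or.inr ⟨h2, h1, hx⟩
    · rintro ((h | h) | h)
      · rw [h]; exact huW
      · rw [h]; exact hvW
      · exact h.2.2
  by_cases hgood : ∀ x ∈ W1, ∃ y ∈ W1, y ≠ x ∧ |x - y| ≤ b
  · -- the pair `u, v`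
    obtain ⟨c₁, hc₁⟩ := ih W1 hlt1 hgood
    obtain ⟨c₀, hc₀⟩ := mat_pair huv huvb hg0 hg1
    have hd : Disjoint ({u, v} : Finset ℝ) W1 := by
      rw [Finset.disjoint_left]
      intro x hx hx'
      rw [mem_insert, mem_singleton] at hx
      rw [hm1] at hx'
      rcases hx with h | h
      · exact hx'.2.1 h
      · exact hx'.1 h
    have := hc₀.glue hd hc₁
    rw [← hWeq] at this
    exact ⟨_, this⟩
  · -- the triple `u, v, w`
    push Not at hgood
    obtain ⟨w, hw, hbad⟩ := hgood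
    have hwv : v < w := hgt w hw
    have hwW := (hm1 w).1 hw
    have hwvb : w - v ≤ b := by
      obtain ⟨y, hy, hyw, hyb⟩ := hW w hwW.2.2
      have hy1 : y ∉ W1 := fun h => absurd hyb (not_le.2 (hbad y h hyw))
      have hyv : y ≤ v := by
        rw [hm1] at hy1
        by_cases h1 : y = v
        · exact h1.le
        · by_cases h2 : y = u
          · rw [h2]; exact huv.le
          · exact absurd ⟨h1, h2, hy⟩ hy1
      have := abs_le.1 hyb
      linarith [this.2]
    set W2 := W1.erase w with hW2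
    have hm2 : ∀ x, x ∈ W2 ↔ x ≠ w ∧ x ∈ W1 := fun x => by rw [hW2, mem_erase]
    have hlt2 : W2 ⊂ W := lt_of_lt_of_le (Finset.erase_ssubset hw) hlt1.subset
    have hgood2 : ∀ x ∈ W2, ∃ y ∈ W2, y ≠ x ∧ |x - y| ≤ b := by
      intro x hx
      have hx2 := (hm2 x).1 hx
      have hxW := (hm1 x).1 hx2.2
      obtain ⟨y, hy, hyx, hyb⟩ := hW x hxW.2.2
      have hxw : b < |w - x| := hbad x hx2.2 hx2.1
      have hyw : y ≠ w := by
        rintro rfl
        rw [abs_sub_comm] at hyb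
        exact absurd hyb (not_le.2 hxw)
      have hxgt : w < x := by
        by_contra hle
        push Not at hle
        have h1 := hgt x hx2.2
        rw [abs_of_nonneg (by linarith)] at hxw
        linarith
      have hygt : ¬ y ≤ v := by
        intro hle
        rw [abs_le] at hyb
        rw [abs_of_nonpos (by linarith)] at hxw
        linarith [hyb.2]
      refine ⟨y, (hm2 y).2 ⟨hyw, (hm1 y).2 ⟨fun e => hygt e.le, fun e => hygt (by rw [e]; exact huv.le), hy⟩⟩, hyx, hyb⟩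
    obtain ⟨c₁, hc₁⟩ := ih W2 hlt2 hgood2
    have hWeq2 : W = {u, v, w} ∪ W2 := by
      rw [hWeq]
      ext x
      simp only [mem_union, mem_insert, mem_singleton, hm2]
      constructor
      · rintro ((h | h) | h)
        · exact Or.inl (Or.inl h)
        · exact Or.inl (Or.inr (Or.inl h))
        · by_cases h' : x = w
          · exact Or.inl (Or.inr (Or.inr h'))
          · exact Or.inr ⟨h', h⟩
      · rintro ((h | h | h) | h)
        · exact Or.inl (Or.inl h)
        · exact Or.inl (Or.inr h)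
        · rw [h]; exact Or.inr hw
        · exact Or.inr h.2
    obtain ⟨c₀, hc₀⟩ := mat_triple huv hwv huvb hwvb hg0 hg1
    have hd : Disjoint ({u, v, w} : Finset ℝ) W2 := by
      rw [Finset.disjoint_left]
      intro x hx hx'
      rw [mem_insert, mem_insert, mem_singleton] at hx
      rw [hm2, hm1] at hx'
      rcases hx with h | h | h
      · exact hx'.2.2.1 h
      · exact hx'.2.1 h
      · exact hx'.1 h
    have := hc₀.glue hd hc₁
    rw [← hWeq2] at this
    exact ⟨_, this⟩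

end Pool.Agent.Helper49.RT
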