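import Mathlib

/-!
# RT project: the four classes of simple critical zeros

`S` a finite set, `N` the elements near to a foreign object, `R` the symmetric relation of being near. Then `S = A ∪ W ∪ I`,
`A` = elements with `N` or with a near element with `N`, `W` = elements with a near element inside `W`, `I` = isolated ones.
-/

set_option autoImplicit false

open Finset

namespace Pool.Agent.Helper49.RT

theorem split {α : Type*} [DecidableEq α] (S : Finset α) (N : α → Prop) (R : α → α → Prop) (hR : ∀ a b, R a b → R b a) :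
    ∃ A W I : Finset α, A ∪ W ∪ I = S ∧ Disjoint A W ∧ Disjoint A I ∧ Disjoint W I ∧
      (∀ a ∈ A, N a ∨ ∃ b ∈ S, R a b ∧ N b) ∧ (∀ a ∈ W, ∃ b ∈ W, R a b) ∧ (∀ a ∈ I, ¬ N a ∧ ∀ b ∈ S, ¬ R a b) := by
  classical
  set A : Finset α := S.filter (fun a => N a ∨ ((∃ b ∈ S, R a b) ∧ ∀ b ∈ S, R a b → N b)) with hA
  set W : Finset α := S.filter (fun a => ¬ N a ∧ ∃ b ∈ S, R a b ∧ ¬ N b) with hW
  set I : Finset α := S.filter (fun a => ¬ N a ∧ ∀ b ∈ S, ¬ R a b) with hI
  refine ⟨A, W, I, ?_, ?_, ?_, ?_, ?_, ?_, ?_⟩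
  · ext a
    simp only [hA, hW, hI, mem_union, mem_filter]
    constructor
    · rintro ((h | h) | h) <;> exact h.1
    · intro ha
      by_cases h1 : N a
      · exact Or.inl (Or.inl ⟨ha, Or.inl h1⟩)
      · by_cases h2 : ∃ b ∈ S, R a b
        · by_cases h3 : ∀ b ∈ S, R a b → N b
          · exact Or.inl (Or.inl ⟨ha, Or.inr ⟨h2, h3⟩⟩)
          · push Not at h3
            obtain ⟨b, hb, hb1, hb2⟩ := h3
            exact Or.inl (Or.inr ⟨ha, h1, b, hb, hb1, hb2⟩)
        · push Not at h2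
          exact Or.inr ⟨ha, h1, h2⟩
  · rw [disjoint_left]
    intro a h1 h2
    simp only [hA, hW, mem_filter] at h1 h2
    obtain ⟨-, h3, b, hb, hb1, hb2⟩ := h2
    rcases h1.2 with h | h
    · exact h3 h
    · exact hb2 (h.2 b hb hb1)
  · rw [disjoint_left]
    intro a h1 h2
    simp only [hA, hI, mem_filter] at h1 h2
    rcases h1.2 with h | h
    · exact h2.2.1 h
    · obtain ⟨b, hb, hb1⟩ := h.1
      exact h2.2.2 b hb hb1
  · rw [disjoint_left]
    intro a h1 h2
    simp only [hW, hI, mem_filter] at h1 h2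
    obtain ⟨-, -, b, hb, hb1, -⟩ := h1
    exact h2.2.2 b hb hb1
  · intro a ha
    simp only [hA, mem_filter] at ha
    rcases ha.2 with h | h
    · exact Or.inl h
    · obtain ⟨⟨b, hb, hb1⟩, h2⟩ := h
      exact Or.inr ⟨b, hb, hb1, h2 b hb hb1⟩
  · intro a ha
    simp only [hW, mem_filter] at ha ⊢
    obtain ⟨h0, h1, b, hb, hb1, hb2⟩ := ha
    exact ⟨b, ⟨hb, hb2, a, h0, hR a b hb1, h1⟩, hb1⟩
  · intro a ha
    simp only [hI, mem_filter] at ha
    exact ha.2

end Pool.Agent.Helper49.RT
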